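import Mathlib

/-!
Elementary combinatorial lemmas: selection, private sets, parent chains.
-/

namespace Pool.Agent.W146.TP

open Finset
open scoped Classical

universe u v

/-- Following parents until a fixed vertex is reached. -/
theorem exists_parts {V : Type u} {ι : Type v} [Nonempty ι] (F : V → Prop) (f₀ : V → ι)
    (par : V → V) : ∃ f : V → ι, (∀ z, F z → f z = f₀ z) ∧ ∀ z, ¬ F z → f z = f (par z) := by
  set f : V → ι := fun z => if h : ∃ n, F (par^[n] z) then f₀ (par^[Nat.find h] z)
    else Classical.arbitrary ι with hf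
  refine ⟨f, ?_, ?_⟩
  · intro z hz
    have h : ∃ n, F (par^[n] z) := ⟨0, hz⟩
    have h0 : Nat.find h = 0 := by
      rw [Nat.find_eq_zero]; exact hz
    simp only [hf, h, dif_pos, h0, Function.iterate_zero, id]
  · intro z hz
    by_cases h : ∃ n, F (par^[n] z)
    · have h' : ∃ n, F (par^[n] (par z)) := by
        obtain ⟨n, hn⟩ := h
        rcases n with _ | n
        · exact absurd hn hz
        · exact ⟨n, by simpa [Function.iterate_succ_apply] using hn⟩
      have h1 : Nat.find h = Nat.find h' + 1 := by
        rw [Nat.find_eq_iff]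
        constructor
        · have := Nat.find_spec h'
          simpa [Function.iterate_succ_apply] using this
        · intro n hn
          rcases n with _ | n
          · exact hz
          · have := Nat.find_min h' (show n < Nat.find h' by omega)
            simpa [Function.iterate_succ_apply] using this
      simp only [hf, h, h', dif_pos, h1, Function.iterate_succ_apply]
    · have h' : ¬ ∃ n, F (par^[n] (par z)) := by
        rintro ⟨n, hn⟩
        exact h ⟨n + 1, by simpa [Function.iterate_succ_apply] using hn⟩
      simp only [hf, h, h', dif_neg, not_false_eq_true]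

/-- Disjoint private sets via Hall's theorem. -/
theorem exists_private {V : Type u} {ι : Type v} (C : ι → Finset V) (D : Finset ι) (k : ℕ)
    (h : ∀ A ⊆ D, A.Nonempty → ∃ d ∈ A, k * A.card ≤ (C d).card) :
    ∃ P : ι → Finset V, (∀ d ∈ D, P d ⊆ C d ∧ (P d).card = k) ∧
      ∀ d ∈ D, ∀ d' ∈ D, d ≠ d' → Disjoint (P d) (P d') := by
  have hall : ∀ s : Finset ({d // d ∈ D} × Fin k), s.card ≤ (s.biUnion (fun q => C q.1.1)).card := by
    intro s
    rcases s.eq_empty_or_nonempty with rfl | hs
    · simp
    · set A : Finset ι := s.image (fun q => q.1.1) with hA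
      have hAD : A ⊆ D := by
        intro d hd
        simp only [hA, mem_image] at hd
        obtain ⟨q, _, rfl⟩ := hd
        exact q.1.2
      obtain ⟨d, hd, hle⟩ := h A hAD (hs.image _)
      have h1 : s.card ≤ k * A.card := by
        have h2 : s.card ≤ (A ×ˢ (univ : Finset (Fin k))).card := by
          refine Finset.card_le_card_of_injOn (fun q => (q.1.1, q.2)) ?_ ?_
          · intro q hq
            simp only [coe_product, Set.mem_prod, mem_coe, mem_univ, and_true, hA, mem_image]
            exact ⟨q, hq, rfl⟩
          · intro a _ b _ hab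
            simp only [Prod.mk.injEq] at hab
            exact Prod.ext (Subtype.ext hab.1) hab.2
        rw [Finset.card_product, Finset.card_univ, Fintype.card_fin] at h2
        linarith [Nat.mul_comm k A.card]
      refine h1.trans (hle.trans (Finset.card_le_card ?_))
      simp only [hA, mem_image] at hd
      obtain ⟨q, hq, rfl⟩ := hd
      exact Finset.subset_biUnion_of_mem (fun q : {d // d ∈ D} × Fin k => C q.1.1) hq
  obtain ⟨f, hf, hfC⟩ := (Finset.all_card_le_biUnion_card_iff_exists_injective _).1 hall
  refine ⟨fun d => if hd : d ∈ D then univ.image (fun j => f (⟨d, hd⟩, j)) else ∅, ?_, ?_⟩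
  · intro d hd
    simp only [hd, dif_pos]
    constructor
    · intro w hw
      simp only [mem_image, mem_univ, true_and] at hw
      obtain ⟨j, rfl⟩ := hw
      exact hfC (⟨d, hd⟩, j)
    · rw [Finset.card_image_of_injective]
      · simp
      · intro a b hab
        have := hf hab
        simpa using this
  · intro d hd d' hd' hne
    simp only [hd, hd', dif_pos]
    rw [Finset.disjoint_left]
    intro w hw hw'
    simp only [mem_image, mem_univ, true_and] at hw hw'
    obtain ⟨j, rfl⟩ := hw
    obtain ⟨j', h'⟩ := hw'
    have := hf h'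
    simp only [Prod.mk.injEq, Subtype.mk.injEq] at this
    exact hne this.1.symm

/-- Pigeonhole: among at least `k` pairwise disjoint sets, one avoids a set of less than `k`
elements. -/
theorem exists_avoid {V : Type u} {ι : Type v} (I : Finset ι) (A : ι → Finset V) (k : ℕ)
    (hk : k ≤ I.card) (hd : ∀ i ∈ I, ∀ j ∈ I, i ≠ j → Disjoint (A i) (A j)) (S : Finset V)
    (hS : S.card < k) : ∃ i ∈ I, Disjoint (A i) S := by
  by_contra hcon
  push Not at hcon
  have h1 : ∀ i ∈ I, ∃ w, w ∈ A i ∧ w ∈ S := by
    intro i hi
    have := hcon i hi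
    rw [Finset.not_disjoint_iff] at this
    exact this
  have hne : I.Nonempty := by
    rw [← Finset.card_pos]; omega
  obtain ⟨i₀, hi₀⟩ := hne
  have : Nonempty V := ⟨(h1 i₀ hi₀).choose⟩
  choose! g hg using h1
  have h2 : I.card ≤ S.card := by
    refine Finset.card_le_card_of_injOn g (fun i hi => (hg i hi).2) ?_
    intro i hi j hj hij
    by_contra hne
    have h3 := hd i hi j hj hne
    exact Finset.disjoint_left.1 h3 (hg i hi).1 (hij ▸ (hg j hj).1)
  omega

/-- Splitting a set into `t` classes with at least `k` elements. -/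
theorem exists_classes {α : Type u} (S : Finset α) (k t : ℕ) (ht : 1 ≤ t) (hS : k * t ≤ S.card) :
    ∃ κ : α → Fin t, ∀ i, k ≤ (S.filter (fun a => κ a = i)).card := by
  obtain ⟨S', hS', hc⟩ := Finset.exists_subset_card_eq hS
  set e := S'.equivFinOfCardEq hc with he
  have : NeZero t := ⟨by omega⟩
  set κ : α → Fin t := fun a => if h : a ∈ S' then (finProdFinEquiv.symm (e ⟨a, h⟩)).2 else 0
    with hκ
  refine ⟨κ, fun i => ?_⟩
  have h1 : (univ : Finset (Fin k)).card ≤ (S.filter (fun a => κ a = i)).card := by
    refine Finset.card_le_card_of_injOn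
      (fun j => ((e.symm (finProdFinEquiv (j, i)) : {a // a ∈ S'}) : α)) ?_ ?_
    · intro j _
      have h2 : ((e.symm (finProdFinEquiv (j, i)) : {a // a ∈ S'}) : α) ∈ S' :=
        (e.symm (finProdFinEquiv (j, i))).2
      rw [Finset.mem_coe, Finset.mem_filter]
      refine ⟨hS' h2, ?_⟩
      simp only [hκ, h2, dif_pos]
      rw [Subtype.coe_eta, Equiv.apply_symm_apply, Equiv.symm_apply_apply]
    · intro a _ b _ hab
      have h3 := e.symm.injective (Subtype.ext hab)
      have h4 := finProdFinEquiv.injective h3
      simpa using h4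
  simpa using h1

/-- Selection of indices without conflicts. -/
theorem exists_select {σ : Type u} (n N D : ℕ) (S : Finset σ) (tri : σ → Finset (Fin n))
    (htri : ∀ s ∈ S, (tri s).card ≤ 3) (hS : S.card ≤ D * n) (R : Finset (Fin n))
    (hR : 2 * R.card ≤ n) (hn : 4 * (36 * D + 1) * N ≤ n) :
    ∃ I : Finset (Fin n), I.card = N ∧ (∀ r ∈ I, r ∉ R) ∧ ∀ s ∈ S, ∀ r ∈ I, ∀ r' ∈ I,
      r ∈ tri s → r' ∈ tri s → r = r' := by
  rcases Nat.eq_zero_or_pos n with hn0 | hn0
  · subst hn0
    have hN : N = 0 := by
      by_contra hN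
      have h1 : 1 ≤ N := Nat.one_le_iff_ne_zero.2 hN
      nlinarith [Nat.zero_le (D * N)]
    subst hN
    exact ⟨∅, by simp, by simp, by simp⟩
  set deg : Fin n → ℕ := fun r => (S.filter (fun s => r ∈ tri s)).card with hdeg
  have hsum : ∑ r, deg r ≤ 3 * (D * n) := by
    calc ∑ r, deg r = ∑ r : Fin n, ∑ s ∈ S, (if r ∈ tri s then 1 else 0) := by
          simp only [hdeg, Finset.card_filter]
      _ = ∑ s ∈ S, ∑ r : Fin n, (if r ∈ tri s then 1 else 0) := Finset.sum_comm
      _ = ∑ s ∈ S, (tri s).card := by
          refine Finset.sum_congr rfl (fun s _ => ?_)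
          rw [← Finset.card_filter]
          congr 1
          ext r
          simp
      _ ≤ S.card • 3 := Finset.sum_le_card_nsmul S _ 3 htri
      _ ≤ 3 * (D * n) := by simp only [smul_eq_mul]; omega
  set Bad : Finset (Fin n) := univ.filter (fun r => 12 * D < deg r) with hBad
  have hBadc : 4 * Bad.card ≤ n := by
    by_contra hlt
    push Not at hlt
    have h1 : Bad.card • (12 * D + 1) ≤ ∑ r ∈ Bad, deg r :=
      Finset.card_nsmul_le_sum Bad _ _ (fun r hr => by
        simp only [hBad, mem_filter, mem_univ, true_and] at hr; omega)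
    have h2 : ∑ r ∈ Bad, deg r ≤ ∑ r, deg r :=
      Finset.sum_le_univ_sum_of_nonneg (fun _ => Nat.zero_le _)
    simp only [smul_eq_mul] at h1
    nlinarith
  set Low : Finset (Fin n) := univ.filter (fun r => deg r ≤ 12 * D ∧ r ∉ R) with hLow
  have hLowc : n ≤ 4 * Low.card := by
    have h1 : (univ : Finset (Fin n)) ⊆ Low ∪ (Bad ∪ R) := by
      intro r _
      simp only [hLow, hBad, mem_union, mem_filter, mem_univ, true_and]
      by_cases h : r ∈ R
      · right; right; exact h
      · rcases Nat.lt_or_ge (12 * D) (deg r) with h' | h'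
        · right; left; exact h'
        · left; exact ⟨h', h⟩
    have h2 := Finset.card_le_card h1
    rw [Finset.card_univ, Fintype.card_fin] at h2
    have h3 := Finset.card_union_le Low (Bad ∪ R)
    have h4 := Finset.card_union_le Bad R
    omega
  -- a maximal conflict-free set
  set good : Finset (Fin n) → Prop := fun I => I ⊆ Low ∧ ∀ s ∈ S, ∀ r ∈ I, ∀ r' ∈ I,
      r ∈ tri s → r' ∈ tri s → r = r' with hgood
  have hex : ((Low.powerset).filter good).Nonempty :=
    ⟨∅, by simp [hgood]⟩
  obtain ⟨I, hI, hmax⟩ := Finset.exists_max_image _ Finset.card hex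
  simp only [mem_filter, mem_powerset] at hI
  have hcover : Low ⊆ I ∪ I.biUnion (fun r' => (S.filter (fun s => r' ∈ tri s)).biUnion tri) := by
    intro r hr
    by_cases hrI : r ∈ I
    · simp [hrI]
    · have hbad : ¬ good (insert r I) := by
        intro hg
        have h1 := hmax (insert r I) (by
          simp only [mem_filter, mem_powerset]
          exact ⟨hg.1, hg⟩)
        rw [Finset.card_insert_of_notMem hrI] at h1
        omega
      simp only [hgood, not_and] at hbad
      have h2 := hbad (Finset.insert_subset hr hI.1)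
      push Not at h2
      obtain ⟨s, hs, a, ha, b, hb, has, hbs, hab⟩ := h2
      have h3 : ∃ r' ∈ I, r ∈ tri s ∧ r' ∈ tri s := by
        rcases Finset.mem_insert.1 ha with ha1 | ha1
        · rcases Finset.mem_insert.1 hb with hb1 | hb1
          · exact absurd (ha1.trans hb1.symm) hab
          · exact ⟨b, hb1, ha1 ▸ has, hbs⟩
        · rcases Finset.mem_insert.1 hb with hb1 | hb1
          · exact ⟨a, ha1, hb1 ▸ hbs, has⟩
          · exact absurd (hI.2.2 s hs a ha1 b hb1 has hbs) hab
      obtain ⟨r', hr', h4, h5⟩ := h3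
      simp only [mem_union, mem_biUnion, mem_filter]
      exact Or.inr ⟨r', hr', s, ⟨hs, h5⟩, h4⟩
  have hcc : Low.card ≤ I.card * (36 * D + 1) := by
    have h1 := (Finset.card_le_card hcover).trans (Finset.card_union_le _ _)
    have h2 : (I.biUnion (fun r' => (S.filter (fun s => r' ∈ tri s)).biUnion tri)).card
        ≤ I.card * (36 * D) := by
      refine (Finset.card_biUnion_le).trans ?_
      have h3 : ∀ r' ∈ I, ((S.filter (fun s => r' ∈ tri s)).biUnion tri).card ≤ 36 * D := by
        intro r' hr'
        refine (Finset.card_biUnion_le).trans ?_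
        refine (Finset.sum_le_card_nsmul _ _ 3 (fun s hs => htri s (Finset.mem_filter.1 hs).1)).trans
          ?_
        have h4 := hI.1 hr'
        simp only [hLow, mem_filter, mem_univ, true_and] at h4
        simp only [smul_eq_mul]
        have h5 : (S.filter (fun s => r' ∈ tri s)).card ≤ 12 * D := h4.1
        omega
      refine (Finset.sum_le_card_nsmul _ _ _ h3).trans ?_
      simp only [smul_eq_mul]
      exact le_rfl
    nlinarith
  have hNI : N ≤ I.card := by
    have h1 : (36 * D + 1) * (4 * N) ≤ (36 * D + 1) * (4 * I.card) := by nlinarith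
    have h2 := Nat.le_of_mul_le_mul_left h1 (by omega)
    omega
  obtain ⟨J, hJ, hJc⟩ := Finset.exists_subset_card_eq hNI
  refine ⟨J, hJc, ?_, ?_⟩
  · intro r hr
    have := hI.1 (hJ hr)
    simp only [hLow, mem_filter, mem_univ, true_and] at this
    exact this.2
  · intro s hs r hr r' hr' h1 h2
    exact hI.2.2 s hs r (hJ hr) r' (hJ hr') h1 h2

end Pool.Agent.W146.TP
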