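import Pool.Agent.W146.TPHubs
import Pool.Agent.W146.TPComb

/-!
Assembling the parts of a hub structure into strong connectivity.
-/

namespace Pool.Agent.W146.TP

open Finset
open scoped Classical

universe u v

variable {V : Type u}

theorem reach_path {T : V → V → Prop} {U : Finset V} (p : ℕ → V) (l : ℕ)
    (hT : ∀ j, j < l → T (p j) (p (j + 1))) (hU : ∀ j, j ≤ l → p j ∈ U) :
    Relation.ReflTransGen (StepIn T U) (p 0) (p l) := by
  induction l with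
  | zero => exact Relation.ReflTransGen.refl
  | succ l ih =>
    refine (ih (fun j hj => hT j (by omega)) (fun j hj => hU j (by omega))).tail ?_
    exact ⟨hU l (by omega), hU (l + 1) le_rfl, hT l (by omega)⟩

theorem exists_not_mem_of_card {S X : Finset V} {k : ℕ} (h : k ≤ S.card) (hX : X.card < k) :
    ∃ z ∈ S, z ∉ X := by
  by_contra hcon
  push Not at hcon
  have := Finset.card_le_card (show S ⊆ X from hcon)
  omega

theorem half_assembly (T : V → V → Prop) (P X : Finset V) (k : ℕ) (hX : X.card < k)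
    (x0 : V) (A0 : Finset V) (hA0 : ∀ a ∈ A0, a ∈ P ∧ a ∉ X) (hx0 : x0 ∈ A0)
    (hsrc0 : ∀ a ∈ A0, a ≠ x0 → T x0 a)
    {ι : Type v} (J : Finset ι) (A : ι → Finset V) (c : ι → V) (hJ : k ≤ J.card)
    (hdis : ∀ i ∈ J, ∀ j ∈ J, i ≠ j → Disjoint (A i) (A j))
    (hcA : ∀ j ∈ J, c j ∈ A j) (hAP : ∀ j ∈ J, ∀ a ∈ A j, a ∈ P)
    (hsrc : ∀ j ∈ J, ∀ a ∈ A j, a ≠ c j → T (c j) a)
    (hD : ∀ j ∈ J, k ≤ (P.filter (fun z => T z (c j) ∧ ∃ a ∈ A0, T a z)).card)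
    (G0 G1 G2 : V → Prop) (hG0 : ∀ z ∈ P, G0 z → ∀ j ∈ J, ∃ a ∈ A j, T a z)
    (hG1 : ∀ z ∈ P, G1 z → k ≤ (P.filter (fun w => T w z ∧ G0 w)).card)
    (hG2 : ∀ z ∈ P, G2 z → k ≤ (P.filter (fun w => T w z ∧ (G0 w ∨ G1 w))).card)
    (hlev : ∀ z ∈ P, G0 z ∨ G1 z ∨ G2 z) :
    ∀ z ∈ P \ X, Relation.ReflTransGen (StepIn T (P \ X)) x0 z := by
  have hmem : ∀ z, z ∈ P → z ∉ X → z ∈ P \ X := fun z h1 h2 => by simp [h1, h2]
  have hx0' : x0 ∈ P \ X := hmem _ (hA0 _ hx0).1 (hA0 _ hx0).2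
  obtain ⟨j, hj, hjX⟩ := exists_avoid J A k hJ hdis X hX
  have hAX : ∀ a ∈ A j, a ∈ P \ X := fun a ha =>
    hmem a (hAP j hj a ha) (Finset.disjoint_left.1 hjX ha)
  obtain ⟨z0, hz0, hz0X⟩ := exists_not_mem_of_card (hD j hj) hX
  simp only [mem_filter] at hz0
  obtain ⟨hz0P, hz0c, a, haA, haz⟩ := hz0
  have hz0' := hmem z0 hz0P hz0X
  have ha' := hmem a (hA0 a haA).1 (hA0 a haA).2
  have r1 : Relation.ReflTransGen (StepIn T (P \ X)) x0 a := by
    by_cases h : a = x0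
    · rw [h]
    · exact Relation.ReflTransGen.single ⟨hx0', ha', hsrc0 a haA h⟩
  have r2 : Relation.ReflTransGen (StepIn T (P \ X)) x0 (c j) :=
    (r1.tail ⟨ha', hz0', haz⟩).tail ⟨hz0', hAX _ (hcA j hj), hz0c⟩
  have r3 : ∀ b ∈ A j, Relation.ReflTransGen (StepIn T (P \ X)) x0 b := by
    intro b hb
    by_cases h : b = c j
    · rw [h]; exact r2
    · exact r2.tail ⟨hAX _ (hcA j hj), hAX b hb, hsrc j hj b hb h⟩
  have s0 : ∀ z ∈ P \ X, G0 z → Relation.ReflTransGen (StepIn T (P \ X)) x0 z := by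
    intro z hz hg
    obtain ⟨b, hb, hbz⟩ := hG0 z (Finset.mem_sdiff.1 hz).1 hg j hj
    exact (r3 b hb).tail ⟨hAX b hb, hz, hbz⟩
  have s1 : ∀ z ∈ P \ X, G1 z → Relation.ReflTransGen (StepIn T (P \ X)) x0 z := by
    intro z hz hg
    obtain ⟨w, hw, hwX⟩ := exists_not_mem_of_card (hG1 z (Finset.mem_sdiff.1 hz).1 hg) hX
    simp only [mem_filter] at hw
    have hw' := hmem w hw.1 hwX
    exact (s0 w hw' hw.2.2).tail ⟨hw', hz, hw.2.1⟩
  have s2 : ∀ z ∈ P \ X, G2 z → Relation.ReflTransGen (StepIn T (P \ X)) x0 z := by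
    intro z hz hg
    obtain ⟨w, hw, hwX⟩ := exists_not_mem_of_card (hG2 z (Finset.mem_sdiff.1 hz).1 hg) hX
    simp only [mem_filter] at hw
    have hw' := hmem w hw.1 hwX
    rcases hw.2.2 with h | h
    · exact (s0 w hw' h).tail ⟨hw', hz, hw.2.1⟩
    · exact (s1 w hw' h).tail ⟨hw', hz, hw.2.1⟩
  intro z hz
  rcases hlev z (Finset.mem_sdiff.1 hz).1 with h | h | h
  · exact s0 z hz h
  · exact s1 z hz h
  · exact s2 z hz h

end Pool.Agent.W146.TP
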