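import Mathlib

/-!
Basic definitions for the partition theorem for tournaments and the hub lemma.
-/

namespace Pool.Agent.W146.TP

open Finset
open scoped Classical

universe u

variable {V : Type u}

/-- `T` is the arc relation of a tournament. -/
def IsTour (T : V → V → Prop) : Prop :=
  (∀ v, ¬ T v v) ∧ ∀ u v, u ≠ v → (T u v ↔ ¬ T v u)

theorem IsTour.flip {T : V → V → Prop} (h : IsTour T) : IsTour (flip T) :=
  ⟨fun v => h.1 v, fun u v huv => h.2 v u huv.symm⟩

/-- The relation `T` or its reverse. -/
def Rd (T : V → V → Prop) (d : Bool) : V → V → Prop := if d then T else flip T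

theorem IsTour.rd {T : V → V → Prop} (h : IsTour T) (d : Bool) : IsTour (Rd T d) := by
  cases d
  · simpa [Rd] using h.flip
  · simpa [Rd] using h

/-- In a nonempty set some vertex has in-degree less than half. -/
theorem exists_half [Fintype V] {T : V → V → Prop} (hT : IsTour T) (E : Finset V)
    (hE : E.Nonempty) :
    ∃ a ∈ E, 2 * (E.filter (fun w => T w a)).card + 1 ≤ E.card := by
  by_contra hcon
  push Not at hcon
  have h1 : ∀ a ∈ E, (E.filter (fun w => T w a)).card + (E.filter (fun w => T a w)).card + 1
      = E.card := by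
    intro a ha
    have hd : Disjoint (E.filter (fun w => T w a)) (E.filter (fun w => T a w)) := by
      rw [Finset.disjoint_left]
      intro w hw hw'
      simp only [mem_filter] at hw hw'
      by_cases hwa : w = a
      · subst hwa; exact hT.1 _ hw.2
      · exact (hT.2 w a hwa).1 hw.2 hw'.2
    have hu : E = insert a (E.filter (fun w => T w a) ∪ E.filter (fun w => T a w)) := by
      ext w
      simp only [mem_insert, mem_union, mem_filter]
      constructor
      · intro hw
        by_cases hwa : w = a
        · exact Or.inl hwa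
        · right
          by_cases hta : T w a
          · exact Or.inl ⟨hw, hta⟩
          · exact Or.inr ⟨hw, (hT.2 a w (Ne.symm hwa)).2 hta⟩
      · rintro (rfl | h | h)
        · exact ha
        · exact h.1
        · exact h.1
    have hna : a ∉ E.filter (fun w => T w a) ∪ E.filter (fun w => T a w) := by
      simp only [mem_union, mem_filter, not_or, not_and]
      exact ⟨fun _ => hT.1 a, fun _ => hT.1 a⟩
    conv_rhs => rw [hu]
    rw [Finset.card_insert_of_notMem hna, Finset.card_union_of_disjoint hd]
  have h2 : ∑ a ∈ E, (E.filter (fun w => T w a)).card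
      = ∑ a ∈ E, (E.filter (fun w => T a w)).card := by
    simp only [Finset.card_filter]
    rw [Finset.sum_comm]
  have h3 : ∑ a ∈ E, ((E.filter (fun w => T w a)).card + (E.filter (fun w => T a w)).card + 1)
      = E.card * E.card := by
    rw [Finset.sum_congr rfl h1]; simp
  have h4 : ∑ a ∈ E, E.card ≤ ∑ a ∈ E, 2 * (E.filter (fun w => T w a)).card :=
    Finset.sum_le_sum (fun a ha => by have := hcon a ha; omega)
  rw [← Finset.mul_sum] at h4
  simp only [Finset.sum_add_distrib, Finset.sum_const, smul_eq_mul, mul_one] at h3 h4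
  have h5 : 0 < E.card := hE.card_pos
  rw [← h2] at h3
  omega

/-- The hub lemma. -/
theorem hub [Fintype V] {T : V → V → Prop} (hT : IsTour T) (v : V) (U : Finset V) (hv : v ∉ U)
    (hne : (U.filter (fun w => T w v)).Nonempty) (c : ℕ) :
    ∃ A : Finset V, ∃ x ∈ A, v ∈ A ∧ x ∈ U ∧ A ⊆ insert v U ∧ A.card ≤ c + 2 ∧
      (∀ a ∈ A, a ≠ x → T x a) ∧
      ((U \ A).filter (fun w => ∀ a ∈ A, T w a)).card * 2 ^ (c + 1)
        ≤ (U.filter (fun w => T w v)).card := by
  induction c with
  | zero =>
    obtain ⟨a, ha, hlt⟩ := exists_half hT _ hne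
    simp only [mem_filter] at ha
    refine ⟨{v, a}, a, by simp, by simp, ha.1, ?_, ?_, ?_, ?_⟩
    · intro w hw
      simp only [mem_insert, mem_singleton] at hw
      rcases hw with rfl | rfl
      · simp
      · simp [ha.1]
    · exact Finset.card_le_two
    · intro w hw hwa
      simp only [mem_insert, mem_singleton] at hw
      rcases hw with rfl | rfl
      · exact ha.2
      · exact absurd rfl hwa
    · have hsub : ((U \ {v, a}).filter (fun w => ∀ b ∈ ({v, a} : Finset V), T w b))
          ⊆ ((U.filter (fun w => T w v)).filter (fun w => T w a)) := by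
        intro w hw
        simp only [mem_filter, mem_sdiff, mem_insert, mem_singleton, forall_eq_or_imp,
          forall_eq] at hw ⊢
        exact ⟨⟨hw.1.1, hw.2.1⟩, hw.2.2⟩
      have := Finset.card_le_card hsub
      omega
  | succ c ih =>
    obtain ⟨A, x, hxA, hvA, hxU, hAU, hAc, hsrc, hE⟩ := ih
    by_cases hem : ((U \ A).filter (fun w => ∀ a ∈ A, T w a)).Nonempty
    · obtain ⟨a, ha, hlt⟩ := exists_half hT _ hem
      simp only [mem_filter, mem_sdiff] at ha
      refine ⟨insert a A, a, by simp, by simp [hvA], ha.1.1, ?_, ?_, ?_, ?_⟩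
      · intro w hw
        simp only [mem_insert] at hw
        rcases hw with rfl | hw
        · simp [ha.1.1]
        · exact hAU hw
      · exact (Finset.card_insert_le _ _).trans (by omega)
      · intro w hw hwa
        simp only [mem_insert] at hw
        rcases hw with rfl | hw
        · exact absurd rfl hwa
        · exact ha.2 w hw
      · have hsub : ((U \ insert a A).filter (fun w => ∀ b ∈ insert a A, T w b))
            ⊆ (((U \ A).filter (fun w => ∀ a ∈ A, T w a)).filter (fun w => T w a)) := by
          intro w hw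
          simp only [mem_filter, mem_sdiff, mem_insert, not_or, forall_eq_or_imp] at hw ⊢
          exact ⟨⟨⟨hw.1.1, hw.1.2.2⟩, hw.2.2⟩, hw.2.1⟩
        have h1 := Finset.card_le_card hsub
        calc _ ≤ (2 * (((U \ A).filter (fun w => ∀ a ∈ A, T w a)).filter
              (fun w => T w a)).card) * 2 ^ (c + 1) := by
              rw [pow_succ 2 (c + 1)]
              nlinarith [Nat.zero_le (2 ^ (c + 1)), Nat.mul_le_mul_right (2 ^ (c + 1)) h1]
          _ ≤ ((U \ A).filter (fun w => ∀ a ∈ A, T w a)).card * 2 ^ (c + 1) :=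
              Nat.mul_le_mul_right _ (by omega)
          _ ≤ _ := hE
    · rw [Finset.not_nonempty_iff_eq_empty] at hem
      refine ⟨A, x, hxA, hvA, hxU, hAU, by omega, hsrc, ?_⟩
      rw [hem]; simp

/-- Choosing the `m` elements with the smallest value. -/
theorem exists_low {α : Type u} (S : Finset α) (f : α → ℕ) (K : ℕ) (hK : ∀ v ∈ S, K ≤ f v)
    (m : ℕ) (hm : m ≤ S.card) :
    ∃ Λ ⊆ S, Λ.card = m ∧ ∃ δ, K ≤ δ ∧ (∀ v ∈ Λ, f v ≤ δ) ∧ ∀ v ∈ S \ Λ, δ ≤ f v := by
  induction m with
  | zero => exact ⟨∅, by simp, by simp, K, le_rfl, by simp, by simpa using hK⟩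
  | succ m ih =>
    obtain ⟨Λ, hΛ, hc, δ, hKδ, h1, h2⟩ := ih (by omega)
    have hne : (S \ Λ).Nonempty := by
      rw [← Finset.card_pos, Finset.card_sdiff_of_subset hΛ]; omega
    obtain ⟨a, ha, hmin⟩ := Finset.exists_min_image (S \ Λ) f hne
    have ha' := ha
    simp only [mem_sdiff] at ha'
    refine ⟨insert a Λ, ?_, ?_, f a, hKδ.trans (h2 a ha), ?_, ?_⟩
    · intro w hw
      simp only [mem_insert] at hw
      rcases hw with rfl | hw
      · exact ha'.1
      · exact hΛ hw
    · rw [Finset.card_insert_of_notMem ha'.2, hc]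
    · intro w hw
      simp only [mem_insert] at hw
      rcases hw with rfl | hw
      · exact le_rfl
      · exact (h1 w hw).trans (h2 a ha)
    · intro w hw
      simp only [mem_sdiff, mem_insert, not_or] at hw
      exact hmin w (by simp [hw.1, hw.2.2])

end Pool.Agent.W146.TP
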