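import Pool.Agent.W146.TPMain

/-!
The choice of parameters.
-/

namespace Pool.Agent.W146.TP

open Finset
open scoped Classical

universe u

theorem lin_le_pow (u : ℕ) : 5184 * u + 31134 ≤ 2 ^ (u + 15) := by
  induction u with
  | zero => norm_num
  | succ u ih =>
    rw [show u + 1 + 15 = (u + 15) + 1 by ring, pow_succ]
    omega

theorem cube_le (L : ℕ) : (L + 1) ^ 3 ≤ 2 * 4 ^ L := by
  induction L with
  | zero => norm_num
  | succ L ih =>
    rcases Nat.lt_or_ge L 2 with h | h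
    · interval_cases L <;> norm_num
    · rw [pow_succ 4 L]
      nlinarith [ih, h, Nat.mul_le_mul h h, Nat.mul_le_mul h (Nat.mul_le_mul h h)]

theorem partition_strong {V : Type u} [Fintype V] {T : V → V → Prop} (hT : IsTour T) (k t K : ℕ)
    (hk : 1 ≤ k) (ht : 1 ≤ t)
    (hKb : 4000000000 * (k ^ 3 * t ^ 2 * (Nat.log 2 (k * t) + 1) ^ 3) ≤ K)
    (hK : KStrong T K (univ : Finset V)) (x : Fin t → V) (hx : Function.Injective x) :
    ∃ f : V → Fin t, (∀ j, f (x j) = j) ∧
      ∀ i, KStrong T k (univ.filter (fun w => f w = i)) := by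
  set N := k * t with hN
  set u := Nat.log 2 N + 1 with hu
  have hN1 : 1 ≤ N := Nat.mul_pos hk ht
  have hNt : t ≤ N := Nat.le_mul_of_pos_left t hk
  have hNk : k ≤ N := Nat.le_mul_of_pos_right k ht
  have hu1 : 1 ≤ u := by omega
  have hNu : N < 2 ^ u := Nat.lt_pow_succ_log_self (by norm_num) N
  set c := 3 * u + 14 with hc
  set n := 4 * (36 * (2 * c + 8) + 1) * N with hn
  set m := n + N with hm
  set S0 := t + 2 * m * (c + 2) + 4 * n with hS0
  set B := k * (2 * S0 + 2 * N) with hB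
  have hKb' : 4000000000 * (k * N ^ 2 * u ^ 3) ≤ K := by
    refine le_trans (le_of_eq ?_) hKb
    rw [hN]; ring
  -- basic monotonicity facts
  have huN : u * N ≤ u * N := le_rfl
  have hn_le : n ≤ 6052 * (u * N) := by
    have h1 : 4 * (36 * (2 * c + 8) + 1) ≤ 6052 * u := by omega
    calc n ≤ 6052 * u * N := Nat.mul_le_mul_right _ h1
      _ = 6052 * (u * N) := by ring
  have hNuN : N ≤ u * N := Nat.le_mul_of_pos_left N hu1
  have hm_le : m ≤ 6053 * (u * N) := by omega
  have hu2 : u * N ≤ u ^ 2 * N := by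
    rw [pow_two, mul_assoc]
    exact Nat.le_mul_of_pos_left _ hu1
  have hS_le : S0 ≤ 254223 * (u ^ 2 * N) := by
    have h1 : 2 * m * (c + 2) ≤ 230014 * (u ^ 2 * N) := by
      have h2 : c + 2 ≤ 19 * u := by omega
      calc 2 * m * (c + 2) ≤ 2 * (6053 * (u * N)) * (19 * u) :=
            Nat.mul_le_mul (by omega) h2
        _ = 230014 * (u ^ 2 * N) := by ring
    omega
  have hB_le : B ≤ 508448 * (k * (u ^ 2 * N)) := by
    have h1 : 2 * S0 + 2 * N ≤ 508448 * (u ^ 2 * N) := by omega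
    calc B ≤ k * (508448 * (u ^ 2 * N)) := Nat.mul_le_mul_left _ h1
      _ = _ := by ring
  have hnB : (n + 1) * B ≤ 3077635744 * (k * N ^ 2 * u ^ 3) := by
    have h1 : n + 1 ≤ 6053 * (u * N) := by omega
    calc (n + 1) * B ≤ (6053 * (u * N)) * (508448 * (k * (u ^ 2 * N))) :=
          Nat.mul_le_mul h1 hB_le
      _ = _ := by ring
  have hk0 : 0 < k := hk
  have hN0 : 0 < N := hN1
  have hu0 : 0 < u := hu1
  have hpos : 0 < k * N ^ 2 * u ^ 3 := by positivity
  have hpos1 : 0 < k * N * u := by positivity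
  have hpos2 : 0 < N * u := by positivity
  have hS_le2 : u ^ 2 * N ≤ k * N ^ 2 * u ^ 3 := by
    calc u ^ 2 * N = u ^ 2 * N * 1 := by ring
      _ ≤ u ^ 2 * N * (k * N * u) := Nat.mul_le_mul_left _ hpos1
      _ = _ := by ring
  have hB_le2 : k * (u ^ 2 * N) ≤ k * N ^ 2 * u ^ 3 := by
    calc k * (u ^ 2 * N) = k * (u ^ 2 * N) * 1 := by ring
      _ ≤ k * (u ^ 2 * N) * (N * u) := Nat.mul_le_mul_left _ hpos2
      _ = _ := by ring
  have hcond : 2 * (2 * k + 1) * m ≤ 2 ^ (c + 1) := by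
    have h1 : 2 * (2 * k + 1) ≤ 6 * k := by omega
    have h2 : m = (288 * c + 1157) * N := by rw [hm, hn]; ring
    have h3 : 6 * (288 * c + 1157) = 5184 * u + 31134 := by rw [hc]; ring
    have h4 : 2 ^ (c + 1) = 2 ^ u * 2 ^ u * 2 ^ (u + 15) := by
      rw [← pow_add, ← pow_add]; congr 1; omega
    calc 2 * (2 * k + 1) * m ≤ (6 * k) * ((288 * c + 1157) * N) := by
          rw [h2]; exact Nat.mul_le_mul_right _ h1
      _ = (k * N) * (6 * (288 * c + 1157)) := by ring
      _ = (k * N) * (5184 * u + 31134) := by rw [h3]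
      _ ≤ (2 ^ u * 2 ^ u) * 2 ^ (u + 15) :=
          Nat.mul_le_mul (Nat.mul_le_mul (hNk.trans hNu.le) hNu.le) (lin_le_pow u)
      _ = 2 ^ (c + 1) := h4.symm
  have hbig : n + t + 2 * m + 2 * m * (c + 2) < K := by
    omega
  obtain ⟨F⟩ := frame_exists hT hK x hx m n c (Nat.le_add_right n N) hbig
  exact frame_parts hT (fun d w => le_indeg (hT.rd d) (hK.rd d) w) F k N S0 B hk ht rfl rfl le_rfl
    le_rfl (by omega) (by omega) hcond le_rfl

end Pool.Agent.W146.TP
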