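import Pool.Agent.W146.TPPath

/-!
Minimal path systems and shortcut lemmas.
-/

namespace Pool.Agent.W146.TP

open Finset
open scoped Classical

universe u

variable {V : Type u}

/-- The reversed path system. -/
def PSys.rev {T : V → V → Prop} {W : Finset V} {m : ℕ} {y x : Fin m → V} {n : ℕ}
    (σ : PSys T W y x n) : PSys (flip T) W x y n where
  s := σ.e
  e := σ.s
  l := σ.l
  p := fun r j => σ.p r (σ.l r + 1 - j)
  s_inj := σ.e_inj
  e_inj := σ.s_inj
  p_zero := fun r => by simpa using σ.p_end r
  p_end := fun r => by simpa using σ.p_zero r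
  chain := fun r j hj => by
    have h := σ.chain r (σ.l r - j) (by omega)
    have e1 : σ.l r + 1 - j = σ.l r - j + 1 := by omega
    have e2 : σ.l r + 1 - (j + 1) = σ.l r - j := by omega
    rw [e1, e2]
    exact h
  memW := fun r j h1 h2 => σ.memW r _ (by omega) (by omega)
  inj := fun r j r' j' h1 h2 h3 h4 h => by
    have := σ.inj r _ r' _ (by omega) (by omega) (by omega) (by omega) h
    obtain ⟨h5, h6⟩ := this
    subst h5
    exact ⟨rfl, by omega⟩

/-- Minimality of the total length. -/
def PSys.IsMin {T : V → V → Prop} {W : Finset V} {m : ℕ} {y x : Fin m → V} {n : ℕ}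
    (σ : PSys T W y x n) : Prop :=
  ∀ σ' : PSys T W y x n, ∑ r, σ.l r ≤ ∑ r, σ'.l r

theorem PSys.IsMin.rev {T : V → V → Prop} {W : Finset V} {m : ℕ} {y x : Fin m → V} {n : ℕ}
    {σ : PSys T W y x n} (h : σ.IsMin) : σ.rev.IsMin := by
  intro σ'
  exact h σ'.rev

theorem exists_min {T : V → V → Prop} {W : Finset V} {m : ℕ} {y x : Fin m → V} {n : ℕ}
    (h : Nonempty (PSys T W y x n)) : ∃ σ : PSys T W y x n, σ.IsMin := by
  obtain ⟨σ, hσ⟩ := WellFounded.exists_minimal_of_measure' h
  exact ⟨σ, hσ⟩
where
  WellFounded.exists_minimal_of_measure' {T : V → V → Prop} {W : Finset V} {m : ℕ}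
      {y x : Fin m → V} {n : ℕ}
      (h : Nonempty (PSys T W y x n)) : ∃ σ : PSys T W y x n, ∀ σ' : PSys T W y x n,
        ∑ r, σ.l r ≤ ∑ r, σ'.l r := by
    have hex : ∃ N, ∃ σ : PSys T W y x n, ∑ r, σ.l r = N := by
      obtain ⟨σ⟩ := h
      exact ⟨_, σ, rfl⟩
    obtain ⟨σ, hσ⟩ := Nat.find_spec hex
    refine ⟨σ, fun σ' => ?_⟩
    rw [hσ]
    exact Nat.find_min' hex ⟨σ', rfl⟩

theorem PSys.IsMin.update {T : V → V → Prop} {W : Finset V} {m : ℕ} {y x : Fin m → V} {n : ℕ}
    {σ : PSys T W y x n} (hmin : σ.IsMin) (r : Fin n) (e' : Fin m) (l' : ℕ) (p' : ℕ → V)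
    (he : ∀ r', r' ≠ r → σ.e r' ≠ e') (h0 : p' 0 = y (σ.s r)) (h1 : p' (l' + 1) = x e')
    (hch : ∀ j, j ≤ l' → T (p' j) (p' (j + 1))) (hW : ∀ j, 1 ≤ j → j ≤ l' → p' j ∈ W)
    (hinj : ∀ j j', 1 ≤ j → j ≤ l' → 1 ≤ j' → j' ≤ l' → p' j = p' j' → j = j')
    (hdis : ∀ j, 1 ≤ j → j ≤ l' → ∀ r', r' ≠ r → ∀ j', 1 ≤ j' → j' ≤ σ.l r' →
      p' j ≠ σ.p r' j') : σ.l r ≤ l' := by
  have h := hmin {
    s := σ.s
    e := Function.update σ.e r e'
    l := Function.update σ.l r l'
    p := Function.update σ.p r p'
    s_inj := σ.s_inj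
    e_inj := by
      intro a b hab
      by_cases ha : a = r
      · by_cases hb : b = r
        · rw [ha, hb]
        · rw [ha, Function.update_self, Function.update_of_ne hb] at hab
          exact absurd hab.symm (he b hb)
      · by_cases hb : b = r
        · rw [hb, Function.update_self, Function.update_of_ne ha] at hab
          exact absurd hab (he a ha)
        · rw [Function.update_of_ne ha, Function.update_of_ne hb] at hab
          exact σ.e_inj hab
    p_zero := by
      intro a
      by_cases ha : a = r
      · subst ha; simpa using h0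
      · simpa [ha] using σ.p_zero a
    p_end := by
      intro a
      by_cases ha : a = r
      · subst ha; simpa using h1
      · simpa [ha] using σ.p_end a
    chain := by
      intro a
      by_cases ha : a = r
      · subst ha; simpa using hch
      · simpa [ha] using σ.chain a
    memW := by
      intro a
      by_cases ha : a = r
      · subst ha; simpa using hW
      · simpa [ha] using σ.memW a
    inj := by
      intro a j b j' h1 h2 h3 h4 h5
      by_cases ha : a = r
      · subst ha
        by_cases hb : b = a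
        · subst hb
          simp only [Function.update_self] at h2 h4 h5
          exact ⟨rfl, hinj j j' h1 h2 h3 h4 h5⟩
        · simp only [Function.update_self, Function.update_of_ne hb] at h2 h4 h5
          exact absurd h5 (hdis j h1 h2 b hb j' h3 h4)
      · by_cases hb : b = r
        · subst hb
          simp only [Function.update_self, Function.update_of_ne ha] at h2 h4 h5
          exact absurd h5.symm (hdis j' h3 h4 a ha j h1 h2)
        · simp only [Function.update_of_ne ha, Function.update_of_ne hb] at h2 h4 h5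
          exact σ.inj a j b j' h1 h2 h3 h4 h5 }
  have e1 : ∑ a, Function.update σ.l r l' a = l' + ∑ a ∈ univ \ {r}, σ.l a := by
    rw [Finset.sum_update_of_mem (mem_univ r)]
  have e2 : ∑ a, σ.l a = σ.l r + ∑ a ∈ univ \ {r}, σ.l a := by
    rw [← Finset.add_sum_erase univ σ.l (mem_univ r), Finset.sdiff_singleton_eq_erase]
  have h' : ∑ a, σ.l a ≤ ∑ a, Function.update σ.l r l' a := h
  rw [e1, e2] at h'
  omega

/-- No shortcut from an interior vertex to an unused target. -/
theorem PSys.IsMin.short_one {T : V → V → Prop} {W : Finset V} {m : ℕ} {y x : Fin m → V} {n : ℕ}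
    {σ : PSys T W y x n} (hmin : σ.IsMin) (i : Fin m) (hi : ∀ r, σ.e r ≠ i) (r : Fin n) (j : ℕ)
    (h2 : j + 1 ≤ σ.l r) : ¬ T (σ.p r j) (x i) := by
  intro hT
  have := hmin.update r i j (fun a => if a ≤ j then σ.p r a else x i) (fun r' _ => hi r')
    (by simpa using σ.p_zero r) (by simp) ?_ ?_ ?_ ?_
  · omega
  · intro a ha
    rcases Nat.lt_or_ge a j with h | h
    · have h3 : a ≤ j := by omega
      have h4 : a + 1 ≤ j := by omega
      simp only [h3, h4, if_true]
      exact σ.chain r a (by omega)
    · have h3 : a = j := by omega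
      subst h3
      simp only [le_refl, if_true]
      rw [if_neg (by omega)]
      exact hT
  · intro a h1 h2
    simp only [h2, if_true]
    exact σ.memW r a h1 (by omega)
  · intro a b h1 h2 h3 h4 h5
    simp only [h2, h4, if_true] at h5
    exact (σ.inj r a r b h1 (by omega) h3 (by omega) h5).2
  · intro a h1 h2 r' hr' b h3 h4 h5
    simp only [h2, if_true] at h5
    exact hr' (σ.inj r a r' b h1 (by omega) h3 h4 h5).1.symm

/-- No shortcut through a vertex outside of the system. -/
theorem PSys.IsMin.short_two {T : V → V → Prop} {W : Finset V} {m : ℕ} {y x : Fin m → V} {n : ℕ}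
    {σ : PSys T W y x n} (hmin : σ.IsMin) (i : Fin m) (hi : ∀ r, σ.e r ≠ i) (w : V) (hwW : w ∈ W)
    (hw : ∀ r j, 1 ≤ j → j ≤ σ.l r → σ.p r j ≠ w) (hwx : T w (x i)) (r : Fin n) (j : ℕ)
    (h2 : j + 2 ≤ σ.l r) : ¬ T (σ.p r j) w := by
  intro hT
  have := hmin.update r i (j + 1) (fun a => if a ≤ j then σ.p r a else if a = j + 1 then w else x i)
    (fun r' _ => hi r') (by simpa using σ.p_zero r) (by simp) ?_ ?_ ?_ ?_
  · omega
  · intro a ha
    rcases Nat.lt_or_ge a j with h | h
    · have h3 : a ≤ j := by omega
      have h4 : a + 1 ≤ j := by omega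
      simp only [h3, h4, if_true]
      exact σ.chain r a (by omega)
    · rcases Nat.lt_or_ge a (j + 1) with h' | h'
      · have h3 : a = j := by omega
        subst h3
        simp only [le_refl, if_true]
        rw [if_neg (by omega)]
        exact hT
      · have h3 : a = j + 1 := by omega
        subst h3
        simp only [if_true]
        rw [if_neg (by omega), if_neg (by omega), if_neg (by omega)]
        exact hwx
  · intro a h1 h2
    by_cases h3 : a ≤ j
    · simp only [h3, if_true]
      exact σ.memW r a h1 (by omega)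
    · have h4 : a = j + 1 := by omega
      subst h4
      simpa using hwW
  · intro a b h1 h2 h3 h4 h5
    by_cases h6 : a ≤ j
    · by_cases h7 : b ≤ j
      · simp only [h6, h7, if_true] at h5
        exact (σ.inj r a r b h1 (by omega) h3 (by omega) h5).2
      · have h8 : b = j + 1 := by omega
        subst h8
        simp only [h6, h7, if_true, if_false] at h5
        exact absurd h5 (hw r a h1 (by omega))
    · by_cases h7 : b ≤ j
      · have h8 : a = j + 1 := by omega
        subst h8
        simp only [h6, h7, if_true, if_false] at h5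
        exact absurd h5.symm (hw r b h3 (by omega))
      · omega
  · intro a h1 h2 r' hr' b h3 h4 h5
    by_cases h6 : a ≤ j
    · simp only [h6, if_true] at h5
      exact hr' (σ.inj r a r' b h1 (by omega) h3 h4 h5).1.symm
    · have h8 : a = j + 1 := by omega
      subst h8
      simp only [h6, if_true, if_false] at h5
      exact hw r' b h3 h4 h5.symm

end Pool.Agent.W146.TP
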