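import Pool.Agent.W146.TPHubs2
import Pool.Agent.W146.TPMin
import Pool.Agent.W146.TPAsm

/-!
The frame: hubs together with a minimal path system.
-/

namespace Pool.Agent.W146.TP

open Finset
open scoped Classical

universe u

variable {V : Type u}

/-- The kinds of vertices. -/
inductive Kind (t m n : ℕ) where
  | x (j : Fin t) : Kind t m n
  | hub (d : Bool) (i : Fin m) : Kind t m n
  | ends (r : Fin n) : Kind t m n
  | mid (r : Fin n) : Kind t m n
  | out : Kind t m n

/-- Membership of a vertex in the class of a kind. -/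
def InKind {t m n : ℕ} (x : Fin t → V) (A : Bool → Fin m → Finset V) (E M : Fin n → Finset V)
    (w : V) : Kind t m n → Prop
  | .x j => w = x j
  | .hub d i => w ∈ A d i
  | .ends r => w ∈ E r
  | .mid r => w ∈ M r
  | .out => (∀ j, w ≠ x j) ∧ (∀ d i, w ∉ A d i) ∧ (∀ r, w ∉ E r) ∧ ∀ r, w ∉ M r

theorem exists_kind {t m n : ℕ} (x : Fin t → V) (hx : Function.Injective x)
    (A : Bool → Fin m → Finset V) (hAx : ∀ d i j, x j ∉ A d i)
    (hAA : ∀ d i d' i' w, w ∈ A d i → w ∈ A d' i' → d = d' ∧ i = i')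
    (E M : Fin n → Finset V)
    (hEA : ∀ r d i w, w ∈ E r → w ∉ A d i) (hEx : ∀ r j, x j ∉ E r)
    (hEE : ∀ r r' w, w ∈ E r → w ∈ E r' → r = r')
    (hMA : ∀ r d i w, w ∈ M r → w ∉ A d i) (hMx : ∀ r j, x j ∉ M r)
    (hMM : ∀ r r' w, w ∈ M r → w ∈ M r' → r = r')
    (hME : ∀ r r' w, w ∈ M r → w ∉ E r') :
    ∃ kind : V → Kind t m n, ∀ w κ, kind w = κ ↔ InKind x A E M w κ := by
  have h1 : ∀ w, ∃ κ, InKind x A E M w κ := by
    intro w
    by_cases h1 : ∃ j, w = x j
    · obtain ⟨j, hj⟩ := h1
      exact ⟨.x j, hj⟩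
    by_cases h2 : ∃ d i, w ∈ A d i
    · obtain ⟨d, i, h⟩ := h2
      exact ⟨.hub d i, h⟩
    by_cases h3 : ∃ r, w ∈ E r
    · obtain ⟨r, h⟩ := h3
      exact ⟨.ends r, h⟩
    by_cases h4 : ∃ r, w ∈ M r
    · obtain ⟨r, h⟩ := h4
      exact ⟨.mid r, h⟩
    push Not at h1 h2 h3 h4
    exact ⟨.out, h1, h2, h3, h4⟩
  have h2 : ∀ w κ κ', InKind x A E M w κ → InKind x A E M w κ' → κ = κ' := by
    intro w κ κ' h h'
    cases κ with
    | x j =>
      cases κ' with
      | x j' => simp only [InKind] at h h'; rw [hx (h.symm.trans h')]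
      | hub d i => simp only [InKind] at h h'; subst h; exact absurd h' (hAx d i j)
      | ends r => simp only [InKind] at h h'; subst h; exact absurd h' (hEx r j)
      | mid r => simp only [InKind] at h h'; subst h; exact absurd h' (hMx r j)
      | out => simp only [InKind] at h h'; exact absurd h (h'.1 j)
    | hub d i =>
      cases κ' with
      | x j' => simp only [InKind] at h h'; subst h'; exact absurd h (hAx d i j')
      | hub d' i' =>
        simp only [InKind] at h h'
        obtain ⟨rfl, rfl⟩ := hAA _ _ _ _ _ h h'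
        rfl
      | ends r => simp only [InKind] at h h'; exact absurd h (hEA r d i w h')
      | mid r => simp only [InKind] at h h'; exact absurd h (hMA r d i w h')
      | out => simp only [InKind] at h h'; exact absurd h (h'.2.1 d i)
    | ends r =>
      cases κ' with
      | x j' => simp only [InKind] at h h'; subst h'; exact absurd h (hEx r j')
      | hub d' i' => simp only [InKind] at h h'; exact absurd h' (hEA r d' i' w h)
      | ends r' => simp only [InKind] at h h'; rw [hEE r r' w h h']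
      | mid r' => simp only [InKind] at h h'; exact absurd h (hME r' r w h')
      | out => simp only [InKind] at h h'; exact absurd h (h'.2.2.1 r)
    | mid r =>
      cases κ' with
      | x j' => simp only [InKind] at h h'; subst h'; exact absurd h (hMx r j')
      | hub d' i' => simp only [InKind] at h h'; exact absurd h' (hMA r d' i' w h)
      | ends r' => simp only [InKind] at h h'; exact absurd h' (hME r r' w h)
      | mid r' => simp only [InKind] at h h'; rw [hMM r r' w h h']
      | out => simp only [InKind] at h h'; exact absurd h (h'.2.2.2 r)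
    | out =>
      cases κ' with
      | x j' => simp only [InKind] at h h'; exact absurd h' (h.1 j')
      | hub d' i' => simp only [InKind] at h h'; exact absurd h' (h.2.1 d' i')
      | ends r' => simp only [InKind] at h h'; exact absurd h' (h.2.2.1 r')
      | mid r' => simp only [InKind] at h h'; exact absurd h' (h.2.2.2 r')
      | out => rfl
  choose kind hkind using h1
  refine ⟨kind, fun w κ => ⟨fun h => h ▸ hkind w, fun h => h2 w _ _ (hkind w) h⟩⟩

/-- Hubs with a minimal path system. -/
structure Frame [Fintype V] (T : V → V → Prop) {t : ℕ} (x : Fin t → V) (K m n c : ℕ) where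
  kind : V → Kind t m n
  ctr : Bool → Fin m → V
  δ : Bool → ℕ
  ed : Bool → Fin n → Fin m
  kind_x : ∀ w j, kind w = .x j ↔ w = x j
  kind_ctr : ∀ d i, kind (ctr d i) = .hub d i
  hub_card : ∀ d i, (univ.filter (fun w => kind w = .hub d i)).card ≤ c + 2
  hub_src : ∀ d i a, kind a = .hub d i → a ≠ ctr d i → Rd T d (ctr d i) a
  δ_ge : ∀ d, K ≤ δ d
  ctr_deg : ∀ d i, δ d ≤ indeg (Rd T d) (ctr d i)
  out_deg : ∀ d w, kind w = .out → δ d ≤ indeg (Rd T d) w
  E_card : ∀ d i, (univ.filter (fun w => kind w = .out ∧ ∀ a, kind a = .hub d i →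
    Rd T d w a)).card * 2 ^ (c + 1) ≤ δ d
  ed_inj : ∀ d, Function.Injective (ed d)
  mid_short : ∀ d i, (∀ r, ed d r ≠ i) → ∀ r q, kind q = .mid r → Rd T d (ctr d i) q
  out_short : ∀ d i, (∀ r, ed d r ≠ i) → ∀ w, kind w = .out → Rd T d w (ctr d i) →
    ∀ r q, kind q = .mid r → ¬ Rd T d q w
  ends_card : ∀ r, (univ.filter (fun w => kind w = .ends r)).card ≤ 4
  path : ∀ r (U : Finset V), ctr false (ed false r) ∈ U → ctr true (ed true r) ∈ U →
    (∀ w, kind w = .mid r → w ∈ U) → (∀ w, kind w = .ends r → w ∈ U) →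
    Relation.ReflTransGen (StepIn T U) (ctr false (ed false r)) (ctr true (ed true r))

theorem frame_exists [Fintype V] {T : V → V → Prop} (hT : IsTour T) {K : ℕ}
    (hK : KStrong T K (univ : Finset V)) {t : ℕ} (x : Fin t → V) (hx : Function.Injective x)
    (m n c : ℕ) (hnm : n ≤ m) (hbig : n + t + 2 * m + 2 * m * (c + 2) < K) :
    Nonempty (Frame T x K m n c) := by
  obtain ⟨A, ctr, δ, h1, h2, h3, h4, h5, h6, h7, h8, h9⟩ := hubs_exist hT hK x m c (by omega)
  have hAA : ∀ d i d' i' w, w ∈ A d i → w ∈ A d' i' → d = d' ∧ i = i' := by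
    intro d i d' i' w hw hw'
    by_contra hne
    have : (d, i) ≠ (d', i') := by
      intro h
      simp only [Prod.mk.injEq] at h
      exact hne h
    exact Finset.disjoint_left.1 (h4 d i d' i' this) hw hw'
  have hcinj : ∀ d, Function.Injective (ctr d) := by
    intro d i i' h
    exact (hAA d i d i' _ (h1 d i) (h ▸ h1 d i')).2
  set W : Finset V := univ.filter (fun w => (∀ j, x j ≠ w) ∧ ∀ d i, w ∉ A d i) with hW
  have hWmem : ∀ w, w ∈ W ↔ (∀ j, x j ≠ w) ∧ ∀ d i, w ∉ A d i := fun w => by simp [hW]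
  have hcW : ∀ d i, ctr d i ∉ W := by
    intro d i h
    exact ((hWmem _).1 h).2 d i (h1 d i)
  have hWc : (univ \ W).card ≤ t + 2 * m * (c + 2) := by
    have hsub : univ \ W ⊆ univ.image x ∪ (univ : Finset (Bool × Fin m)).biUnion
        (fun p => A p.1 p.2) := by
      intro w hw
      simp only [mem_sdiff, mem_univ, true_and, hWmem, not_and_or, not_forall, not_not] at hw
      simp only [mem_union, mem_image, mem_univ, true_and, mem_biUnion]
      rcases hw with ⟨j, hj⟩ | ⟨d, i, hi⟩
      · exact Or.inl ⟨j, hj⟩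
      · exact Or.inr ⟨(d, i), hi⟩
    refine (Finset.card_le_card hsub).trans ((Finset.card_union_le _ _).trans ?_)
    have e1 : (univ.image x).card ≤ t := by
      refine Finset.card_image_le.trans ?_
      simp
    have e2 : ((univ : Finset (Bool × Fin m)).biUnion (fun p => A p.1 p.2)).card
        ≤ 2 * m * (c + 2) := by
      refine (Finset.card_biUnion_le).trans ?_
      refine (Finset.sum_le_card_nsmul _ _ (c + 2) (fun p _ => h2 p.1 p.2)).trans ?_
      simp [Finset.card_univ, mul_assoc]
    omega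
  have hsys : Nonempty (PSys T W (ctr false) (ctr true) n) := by
    refine psys_exist W n hnm _ _ (hcinj false) (hcinj true) (hcW false) (hcW true) ?_ ?_
    · intro i j h
      have := hAA false i true j _ (h1 false i) (h ▸ h1 true j)
      simp at this
    · intro A0 B0 Z hZ hA0 hB0
      have hdel : ((univ \ W) ∪ Z).card < K := by
        have := Finset.card_union_le (univ \ W) Z
        omega
      set D : Finset V := univ \ ((W ∪ A0 ∪ B0) \ Z) with hD
      have hDc : D.card < K := by
        refine lt_of_le_of_lt (Finset.card_le_card ?_) hdel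
        intro w hw
        simp only [hD, mem_sdiff, mem_univ, true_and, mem_union, not_and, not_not] at hw ⊢
        by_cases hwW : w ∈ W
        · exact Or.inr (hw (Or.inl (Or.inl hwW)))
        · exact Or.inl hwW
      have := hK.2 D (subset_univ _) hDc
      have e1 : univ \ D = (W ∪ A0 ∪ B0) \ Z := by
        rw [hD, sdiff_sdiff_right_self]
        simp
      rw [← e1]
      exact this
  obtain ⟨σ, hσ⟩ := exists_min hsys
  set M : Fin n → Finset V := fun r => (Finset.Icc 3 (σ.l r - 2)).image (σ.p r) with hM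
  set E : Fin n → Finset V := fun r =>
    (Finset.Icc 1 (σ.l r) \ Finset.Icc 3 (σ.l r - 2)).image (σ.p r) with hE
  have hMmem : ∀ r w, w ∈ M r ↔ ∃ j, 3 ≤ j ∧ j + 2 ≤ σ.l r ∧ σ.p r j = w := by
    intro r w
    simp only [hM, mem_image, mem_Icc]
    constructor
    · rintro ⟨j, hj, rfl⟩
      exact ⟨j, hj.1, by omega, rfl⟩
    · rintro ⟨j, hj, hj', rfl⟩
      exact ⟨j, ⟨hj, by omega⟩, rfl⟩
  have hEmem : ∀ r w, w ∈ E r ↔ ∃ j, 1 ≤ j ∧ j ≤ σ.l r ∧ ¬ (3 ≤ j ∧ j + 2 ≤ σ.l r) ∧
      σ.p r j = w := by
    intro r w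
    simp only [hE, mem_image, mem_Icc, mem_sdiff]
    constructor
    · rintro ⟨j, hj, rfl⟩
      exact ⟨j, hj.1.1, hj.1.2, by omega, rfl⟩
    · rintro ⟨j, h1, h2, h3, rfl⟩
      exact ⟨j, ⟨⟨h1, h2⟩, by omega⟩, rfl⟩
  have hEW : ∀ r w, w ∈ E r → w ∈ W := by
    intro r w hw
    obtain ⟨j, h1, h2, _, rfl⟩ := (hEmem r w).1 hw
    exact σ.memW r j h1 h2
  have hMW : ∀ r w, w ∈ M r → w ∈ W := by
    intro r w hw
    obtain ⟨j, h1, h2, rfl⟩ := (hMmem r w).1 hw
    exact σ.memW r j (by omega) (by omega)
  have hEc : ∀ r, (E r).card ≤ 4 := by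
    intro r
    have hsub : E r ⊆ ({1, 2, σ.l r, σ.l r - 1} : Finset ℕ).image (σ.p r) := by
      intro w hw
      obtain ⟨j, h1, h2, h3, rfl⟩ := (hEmem r w).1 hw
      refine Finset.mem_image_of_mem _ ?_
      simp only [mem_insert, mem_singleton]
      omega
    exact (Finset.card_le_card hsub).trans (Finset.card_image_le.trans Finset.card_le_four)
  obtain ⟨kind, hkind⟩ := exists_kind x hx A h5 hAA E M
    (fun r d i w hw => ((hWmem w).1 (hEW r w hw)).2 d i)
    (fun r j hw => ((hWmem _).1 (hEW r _ hw)).1 j rfl)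
    (fun r r' w hw hw' => by
      obtain ⟨j, a1, a2, _, rfl⟩ := (hEmem r w).1 hw
      obtain ⟨j', b1, b2, _, hb⟩ := (hEmem r' _).1 hw'
      exact (σ.inj r j r' j' a1 a2 b1 b2 hb.symm).1)
    (fun r d i w hw => ((hWmem w).1 (hMW r w hw)).2 d i)
    (fun r j hw => ((hWmem _).1 (hMW r _ hw)).1 j rfl)
    (fun r r' w hw hw' => by
      obtain ⟨j, a1, a2, rfl⟩ := (hMmem r w).1 hw
      obtain ⟨j', b1, b2, hb⟩ := (hMmem r' _).1 hw'
      exact (σ.inj r j r' j' (by omega) (by omega) (by omega) (by omega) hb.symm).1)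
    (fun r r' w hw hw' => by
      obtain ⟨j, a1, a2, rfl⟩ := (hMmem r w).1 hw
      obtain ⟨j', b1, b2, b3, hb⟩ := (hEmem r' _).1 hw'
      have := σ.inj r j r' j' (by omega) (by omega) (by omega) (by omega) hb.symm
      obtain ⟨rfl, rfl⟩ := this
      exact b3 ⟨a1, a2⟩)
  have kx : ∀ w j, kind w = .x j ↔ w = x j := fun w j => hkind w (.x j)
  have kh : ∀ w d i, kind w = .hub d i ↔ w ∈ A d i := fun w d i => hkind w (.hub d i)
  have ke : ∀ w r, kind w = .ends r ↔ w ∈ E r := fun w r => hkind w (.ends r)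
  have km : ∀ w r, kind w = .mid r ↔ w ∈ M r := fun w r => hkind w (.mid r)
  have ko : ∀ w, kind w = .out ↔ (∀ j, w ≠ x j) ∧ (∀ d i, w ∉ A d i) ∧ (∀ r, w ∉ E r) ∧
    ∀ r, w ∉ M r := fun w => hkind w .out
  have hout : ∀ w, kind w = .out → w ∈ W ∧ ∀ r j, 1 ≤ j → j ≤ σ.l r → σ.p r j ≠ w := by
    intro w hw
    have h := (ko w).1 hw
    refine ⟨(hWmem w).2 ⟨fun j hj => h.1 j hj.symm, h.2.1⟩, ?_⟩
    intro r j a1 a2 hp
    by_cases h' : 3 ≤ j ∧ j + 2 ≤ σ.l r
    · exact h.2.2.2 r ((hMmem r w).2 ⟨j, h'.1, h'.2, hp⟩)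
    · exact h.2.2.1 r ((hEmem r w).2 ⟨j, a1, a2, h', hp⟩)
  have hWne : ∀ d i w, w ∈ W → ctr d i ≠ w := fun d i w hw h => hcW d i (h ▸ hw)
  exact ⟨{
    kind := kind
    ctr := ctr
    δ := δ
    ed := fun d => if d then σ.e else σ.s
    kind_x := kx
    kind_ctr := fun d i => (kh _ d i).2 (h1 d i)
    hub_card := by
      intro d i
      refine le_trans (Finset.card_le_card ?_) (h2 d i)
      intro w hw
      simp only [mem_filter, mem_univ, true_and] at hw
      exact (kh w d i).1 hw
    hub_src := fun d i a ha hne => h3 d i a ((kh a d i).1 ha) hne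
    δ_ge := h6
    ctr_deg := h7
    out_deg := by
      intro d w hw
      have h := (ko w).1 hw
      exact h8 d w (fun j hj => h.1 j hj.symm) h.2.1
    E_card := by
      intro d i
      refine le_trans (Nat.mul_le_mul_right _ (Finset.card_le_card ?_)) (h9 d i)
      intro w hw
      simp only [mem_filter, mem_univ, true_and] at hw ⊢
      have h := (ko w).1 hw.1
      exact ⟨fun j hj => h.1 j hj.symm, h.2.1, fun a ha => hw.2 a ((kh a d i).2 ha)⟩
    ed_inj := by
      intro d
      cases d
      · exact σ.s_inj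
      · exact σ.e_inj
    mid_short := by
      intro d i hi r q hq
      obtain ⟨j, a1, a2, rfl⟩ := (hMmem r q).1 ((km q r).1 hq)
      have hqW := σ.memW r j (by omega) (by omega)
      rw [((hT.rd d).2 _ _ (hWne d i _ hqW))]
      cases d
      · have h := hσ.rev.short_one i hi r (σ.l r + 1 - j) (by
          show σ.l r + 1 - j + 1 ≤ σ.l r
          omega)
        have e1 : σ.rev.p r (σ.l r + 1 - j) = σ.p r j := by
          show σ.p r (σ.l r + 1 - (σ.l r + 1 - j)) = σ.p r j
          congr 1; omega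
        rw [e1] at h
        exact h
      · exact hσ.short_one i hi r j (by omega)
    out_short := by
      intro d i hi w hw hwx r q hq
      obtain ⟨hwW, hwp⟩ := hout w hw
      obtain ⟨j, a1, a2, rfl⟩ := (hMmem r q).1 ((km q r).1 hq)
      cases d
      · have h := hσ.rev.short_two i hi w hwW (fun r j b1 b2 =>
          hwp r _ (show 1 ≤ σ.l r + 1 - j by
            have : j ≤ σ.l r := b2
            omega) (show σ.l r + 1 - j ≤ σ.l r by omega)) hwx r (σ.l r + 1 - j) (by
          show σ.l r + 1 - j + 2 ≤ σ.l r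
          omega)
        have e1 : σ.rev.p r (σ.l r + 1 - j) = σ.p r j := by
          show σ.p r (σ.l r + 1 - (σ.l r + 1 - j)) = σ.p r j
          congr 1; omega
        rw [e1] at h
        exact h
      · exact hσ.short_two i hi w hwW hwp hwx r j a2
    ends_card := by
      intro r
      refine le_trans (Finset.card_le_card ?_) (hEc r)
      intro w hw
      simp only [mem_filter, mem_univ, true_and] at hw
      exact (ke w r).1 hw
    path := by
      intro r U hs he hm hen
      have hs' : ctr false (σ.s r) ∈ U := hs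
      have he' : ctr true (σ.e r) ∈ U := he
      have h := reach_path (T := T) (U := U) (σ.p r) (σ.l r + 1)
        (fun j hj => σ.chain r j (by omega)) (fun j hj => by
          rcases Nat.eq_zero_or_pos j with h0 | h0
          · rw [h0, σ.p_zero]; exact hs'
          · rcases Nat.lt_or_ge (σ.l r) j with h' | h'
            · have : j = σ.l r + 1 := by omega
              rw [this, σ.p_end]; exact he'
            · by_cases h'' : 3 ≤ j ∧ j + 2 ≤ σ.l r
              · exact hm _ ((km _ r).2 ((hMmem r _).2 ⟨j, h''.1, h''.2, rfl⟩))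
              · exact hen _ ((ke _ r).2 ((hEmem r _).2 ⟨j, h0, h', h'', rfl⟩)))
      rw [σ.p_zero, σ.p_end] at h
      exact h }⟩

end Pool.Agent.W146.TP
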