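import Pool.Agent.W146.TPBasic

/-!
Strong connectivity, degrees, families of hubs.
-/

namespace Pool.Agent.W146.TP

open Finset
open scoped Classical

universe u

variable {V : Type u}

/-- One step inside `U`. -/
def StepIn (T : V → V → Prop) (U : Finset V) : V → V → Prop :=
  fun a b => a ∈ U ∧ b ∈ U ∧ T a b

/-- `U` induces a strongly connected digraph. -/
def StrongOn (T : V → V → Prop) (U : Finset V) : Prop :=
  ∀ a ∈ U, ∀ b ∈ U, Relation.ReflTransGen (StepIn T U) a b

/-- `U` induces a `k`-strong digraph. -/
def KStrong (T : V → V → Prop) (k : ℕ) (U : Finset V) : Prop :=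
  k + 1 ≤ U.card ∧ ∀ X ⊆ U, X.card < k → StrongOn T (U \ X)

/-- Reachability in the reversed digraph. -/
theorem reach_flip {T : V → V → Prop} {U : Finset V} {a b : V}
    (h : Relation.ReflTransGen (StepIn (flip T) U) a b) :
    Relation.ReflTransGen (StepIn T U) b a := by
  induction h with
  | refl => exact Relation.ReflTransGen.refl
  | tail _ hbc ih =>
    exact Relation.ReflTransGen.head ⟨hbc.2.1, hbc.1, hbc.2.2⟩ ih

theorem KStrong.flip {T : V → V → Prop} {k : ℕ} {U : Finset V} (h : KStrong T k U) :
    KStrong (flip T) k U := by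
  refine ⟨h.1, fun X hX hXk a ha b hb => ?_⟩
  have := h.2 X hX hXk b hb a ha
  exact reach_flip (T := _root_.flip T) this

theorem KStrong.rd {T : V → V → Prop} {k : ℕ} {U : Finset V} (h : KStrong T k U) (d : Bool) :
    KStrong (Rd T d) k U := by
  cases d
  · simpa [Rd] using h.flip
  · simpa [Rd] using h

/-- In-degree. -/
noncomputable def indeg [Fintype V] (T : V → V → Prop) (v : V) : ℕ :=
  (univ.filter (fun w => T w v)).card

/-- A closed nonempty proper set contradicts strong connectivity. -/
theorem not_strong_of_closed {T : V → V → Prop} {U C : Finset V} (h : StrongOn T U)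
    {a b : V} (ha : a ∈ U) (hb : b ∈ U) (haC : a ∈ C) (hbC : b ∉ C)
    (hcl : ∀ w ∈ C, ∀ z ∈ U, w ∈ U → T w z → z ∈ C) : False := by
  have hr := h a ha b hb
  have : b ∈ C := by
    clear hb hbC
    induction hr with
    | refl => exact haC
    | tail _ hbc ih => exact hcl _ ih _ hbc.2.1 hbc.1 hbc.2.2
  exact hbC this

theorem le_indeg [Fintype V] {T : V → V → Prop} (hT : IsTour T) {K : ℕ}
    (hK : KStrong T K (univ : Finset V)) (v : V) : K ≤ indeg T v := by
  by_contra hlt
  push Not at hlt
  unfold indeg at hlt
  have hst := hK.2 (univ.filter (fun w => T w v)) (subset_univ _) hlt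
  have hv : v ∈ (univ : Finset V) \ univ.filter (fun w => T w v) := by
    simp [hT.1 v]
  have hcard : 1 < ((univ : Finset V) \ univ.filter (fun w => T w v)).card := by
    have := hK.1
    rw [Finset.card_sdiff_of_subset (subset_univ _)]
    omega
  obtain ⟨w, hw, hwv⟩ := Finset.exists_mem_ne hcard v
  refine not_strong_of_closed (C := univ \ {v}) hst hw hv (by simp [hwv]) (by simp) ?_
  intro y _ z hz hyU hyz
  simp only [mem_sdiff, mem_univ, mem_singleton, true_and]
  rintro rfl
  simp only [mem_sdiff, mem_univ, mem_filter, true_and] at hyU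
  exact hyU hyz

/-- A family of pairwise disjoint hubs. -/
theorem hub_family [Fintype V] {ι : Type} [Fintype ι] (R : ι → V → V → Prop)
    (hR : ∀ i, IsTour (R i)) (v : ι → V) (hinj : Function.Injective v) (Λ : Finset V)
    (hv : ∀ i, v i ∈ Λ) (δ : ι → ℕ) (hδ : ∀ i, indeg (R i) (v i) ≤ δ i) (c : ℕ)
    (hbig : ∀ i, Λ.card + Fintype.card ι * (c + 2) < indeg (R i) (v i)) :
    ∃ (A : ι → Finset V) (x : ι → V),
      (∀ i, x i ∈ A i) ∧ (∀ i, v i ∈ A i) ∧ (∀ i, x i ∉ Λ) ∧
      (∀ i, A i ⊆ insert (v i) (univ \ Λ)) ∧ (∀ i, (A i).card ≤ c + 2) ∧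
      (∀ i, ∀ a ∈ A i, a ≠ x i → R i (x i) a) ∧
      (∀ i j, i ≠ j → Disjoint (A i) (A j)) ∧
      ∀ i, ((univ.filter (fun w => w ∉ Λ ∧ (∀ j, w ∉ A j) ∧ ∀ a ∈ A i, R i w a)).card)
        * 2 ^ (c + 1) ≤ δ i := by
  have key : ∀ I : Finset ι, ∃ (A : ι → Finset V) (x : ι → V),
      (∀ i ∈ I, x i ∈ A i) ∧ (∀ i ∈ I, v i ∈ A i) ∧ (∀ i ∈ I, x i ∉ Λ) ∧
      (∀ i ∈ I, A i ⊆ insert (v i) (univ \ Λ)) ∧ (∀ i ∈ I, (A i).card ≤ c + 2) ∧
      (∀ i ∈ I, ∀ a ∈ A i, a ≠ x i → R i (x i) a) ∧
      (∀ i ∈ I, ∀ j ∈ I, i ≠ j → Disjoint (A i) (A j)) ∧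
      ∀ i ∈ I, ((univ.filter (fun w => w ∉ Λ ∧ (∀ j ∈ I, w ∉ A j) ∧
        ∀ a ∈ A i, R i w a)).card) * 2 ^ (c + 1) ≤ δ i := by
    intro I
    induction I using Finset.induction_on with
    | empty =>
      exact ⟨fun _ => ∅, v, by simp, by simp, by simp, by simp, by simp, by simp, by simp,
        by simp⟩
    | insert i I hi ih =>
      obtain ⟨A, x, h1, h2, h3, h4, h5, h6, h7, h8⟩ := ih
      set Z : Finset V := Λ ∪ I.biUnion A with hZ
      have hZc : Z.card ≤ Λ.card + Fintype.card ι * (c + 2) := by
        refine (Finset.card_union_le _ _).trans ?_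
        refine Nat.add_le_add_left ?_ _
        refine (Finset.card_biUnion_le).trans ?_
        refine (Finset.sum_le_card_nsmul I _ (c + 2) h5).trans ?_
        simp only [smul_eq_mul]
        exact Nat.mul_le_mul_right _ (Finset.card_le_univ I)
      have hne : ((univ \ Z).filter (fun w => R i w (v i))).Nonempty := by
        rw [Finset.nonempty_iff_ne_empty]
        intro hemp
        have hsub : univ.filter (fun w => R i w (v i)) ⊆ Z := by
          intro w hw
          by_contra hwZ
          have : w ∈ ((univ \ Z).filter (fun w => R i w (v i))) := by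
            simp only [mem_filter, mem_sdiff, mem_univ, true_and] at hw ⊢
            exact ⟨hwZ, hw⟩
          rw [hemp] at this
          simp at this
        have h9 := Finset.card_le_card hsub
        have h10 := hbig i
        unfold indeg at h10
        omega
      have hvU : v i ∉ univ \ Z := by
        simp [hZ, hv i]
      obtain ⟨B, y, hyB, hvB, hyU, hBU, hBc, hsrc, hE⟩ := hub (hR i) (v i) (univ \ Z) hvU hne c
      have hAZ : ∀ j ∈ I, A j ⊆ Z := fun j hj =>
        (Finset.subset_biUnion_of_mem A hj).trans Finset.subset_union_right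
      have hviA : ∀ j ∈ I, v i ∉ A j := by
        intro j hj hmem
        have := h4 j hj hmem
        simp only [mem_insert, mem_sdiff, mem_univ, true_and] at this
        rcases this with h | h
        · have := hinj h; subst this; exact hi hj
        · exact h (hv i)
      have hdis : ∀ j ∈ I, Disjoint B (A j) := by
        intro j hj
        rw [Finset.disjoint_left]
        intro w hwB hwA
        have := hBU hwB
        simp only [mem_insert, mem_sdiff, mem_univ, true_and] at this
        rcases this with h | h
        · subst h; exact hviA j hj hwA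
        · exact h (hAZ j hj hwA)
      have hne' : ∀ j ∈ I, j ≠ i := fun j hj h => hi (h ▸ hj)
      refine ⟨Function.update A i B, Function.update x i y, ?_, ?_, ?_, ?_, ?_, ?_, ?_, ?_⟩
      · intro j hj
        rcases Finset.mem_insert.1 hj with rfl | hj
        · simpa using hyB
        · simpa [hne' j hj] using h1 j hj
      · intro j hj
        rcases Finset.mem_insert.1 hj with rfl | hj
        · simpa using hvB
        · simpa [hne' j hj] using h2 j hj
      · intro j hj
        rcases Finset.mem_insert.1 hj with rfl | hj
        · simp only [Function.update_self]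
          simp only [hZ, mem_sdiff, mem_univ, mem_union, not_or, true_and] at hyU
          exact hyU.1
        · simpa [hne' j hj] using h3 j hj
      · intro j hj
        rcases Finset.mem_insert.1 hj with rfl | hj
        · simp only [Function.update_self]
          refine hBU.trans (Finset.insert_subset_insert _ ?_)
          exact Finset.sdiff_subset_sdiff le_rfl Finset.subset_union_left
        · simpa [hne' j hj] using h4 j hj
      · intro j hj
        rcases Finset.mem_insert.1 hj with rfl | hj
        · simpa using hBc
        · simpa [hne' j hj] using h5 j hj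
      · intro j hj
        rcases Finset.mem_insert.1 hj with rfl | hj
        · simpa using hsrc
        · simpa [hne' j hj] using h6 j hj
      · intro j hj l hl hjl
        rcases Finset.mem_insert.1 hj with hj1 | hj1
        · rcases Finset.mem_insert.1 hl with hl1 | hl1
          · exact absurd (hj1.trans hl1.symm) hjl
          · subst hj1
            simpa [hne' l hl1] using hdis l hl1
        · rcases Finset.mem_insert.1 hl with hl1 | hl1
          · subst hl1
            simpa [hne' j hj1] using (hdis j hj1).symm
          · simpa [hne' j hj1, hne' l hl1] using h7 j hj1 l hl1 hjl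
      · intro j hj
        rcases Finset.mem_insert.1 hj with rfl | hj
        · refine le_trans (Nat.mul_le_mul_right _ (Finset.card_le_card (t :=
            ((univ \ Z) \ B).filter (fun w => ∀ a ∈ B, R j w a)) ?_)) (hE.trans ?_)
          · intro w hw
            simp only [mem_filter, mem_univ, true_and, mem_insert, forall_eq_or_imp,
              Function.update_self] at hw
            simp only [hZ, mem_filter, mem_sdiff, mem_univ, true_and, mem_union, mem_biUnion,
              not_or, not_exists, not_and]
            refine ⟨⟨⟨hw.1, fun l hl => ?_⟩, hw.2.1.1⟩, hw.2.2⟩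
            have := hw.2.1.2 l hl
            rwa [Function.update_of_ne (hne' l hl)] at this
          · refine le_trans (Finset.card_le_card ?_) (hδ j)
            intro w hw
            simp only [mem_filter, mem_univ, true_and] at hw ⊢
            exact hw.2
        · refine le_trans (Nat.mul_le_mul_right _ (Finset.card_le_card ?_)) (h8 j hj)
          intro w hw
          simp only [mem_filter, mem_univ, true_and, mem_insert, forall_eq_or_imp,
            Function.update_self, Function.update_of_ne (hne' j hj)] at hw ⊢
          refine ⟨hw.1, fun l hl => ?_, hw.2.2⟩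
          have := hw.2.1.2 l hl
          rwa [Function.update_of_ne (hne' l hl)] at this
  obtain ⟨A, x, h1, h2, h3, h4, h5, h6, h7, h8⟩ := key univ
  refine ⟨A, x, fun i => h1 i (mem_univ _), fun i => h2 i (mem_univ _),
    fun i => h3 i (mem_univ _), fun i => h4 i (mem_univ _), fun i => h5 i (mem_univ _),
    fun i => h6 i (mem_univ _), fun i j => h7 i (mem_univ _) j (mem_univ _), fun i => ?_⟩
  have := h8 i (mem_univ _)
  simpa using this

end Pool.Agent.W146.TP
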