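import Pool.Agent.W146.TPHubs

/-!
Existence of both kinds of hubs in a highly strong tournament.
-/

namespace Pool.Agent.W146.TP

open Finset
open scoped Classical

universe u

variable {V : Type u}

theorem hubs_exist [Fintype V] {T : V → V → Prop} (hT : IsTour T) {K : ℕ}
    (hK : KStrong T K (univ : Finset V)) {t : ℕ} (x : Fin t → V) (m c : ℕ)
    (hbig : t + 2 * m + 2 * m * (c + 2) < K) :
    ∃ (A : Bool → Fin m → Finset V) (ctr : Bool → Fin m → V) (δ : Bool → ℕ),
      (∀ d i, ctr d i ∈ A d i) ∧ (∀ d i, (A d i).card ≤ c + 2) ∧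
      (∀ d i, ∀ a ∈ A d i, a ≠ ctr d i → Rd T d (ctr d i) a) ∧
      (∀ d i d' i', (d, i) ≠ (d', i') → Disjoint (A d i) (A d' i')) ∧
      (∀ d i j, x j ∉ A d i) ∧ (∀ d, K ≤ δ d) ∧
      (∀ d i, δ d ≤ indeg (Rd T d) (ctr d i)) ∧
      (∀ d v, (∀ j, x j ≠ v) → (∀ d' i, v ∉ A d' i) → δ d ≤ indeg (Rd T d) v) ∧
      ∀ d i, (univ.filter (fun w => (∀ j, x j ≠ w) ∧ (∀ d' i', w ∉ A d' i') ∧
        ∀ a ∈ A d i, Rd T d w a)).card * 2 ^ (c + 1) ≤ δ d := by
  set X : Finset V := univ.image x with hX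
  have hXc : X.card ≤ t := by
    refine Finset.card_image_le.trans ?_
    simp
  have hVc : K + 1 ≤ (univ : Finset V).card := hK.1
  have hdeg : ∀ d v, K ≤ indeg (Rd T d) v := fun d v => le_indeg (hT.rd d) (hK.rd d) v
  have hm0 : m ≤ 2 * m * (c + 2) := by nlinarith [Nat.zero_le (m * c)]
  obtain ⟨Λ1, hΛ1, hc1, δ1, hKδ1, hlow1, hup1⟩ := exists_low (univ \ X)
    (indeg (Rd T true)) K (fun v _ => hdeg true v) m (by
      rw [Finset.card_sdiff_of_subset (subset_univ _)]; omega)
  obtain ⟨Λ2, hΛ2, hc2, δ2, hKδ2, hlow2, hup2⟩ := exists_low (univ \ (X ∪ Λ1))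
    (indeg (Rd T false)) K (fun v _ => hdeg false v) m (by
      rw [Finset.card_sdiff_of_subset (subset_univ _)]
      have := Finset.card_union_le X Λ1
      omega)
  set Λ : Finset V := (X ∪ Λ1) ∪ Λ2 with hΛ
  have hΛc : Λ.card ≤ t + 2 * m := by
    have h1 := Finset.card_union_le (X ∪ Λ1) Λ2
    have h2 := Finset.card_union_le X Λ1
    rw [← hΛ] at h1
    omega
  set e1 := Λ1.equivFinOfCardEq hc1 with he1
  set e2 := Λ2.equivFinOfCardEq hc2 with he2
  set v : Bool × Fin m → V := fun p => if p.1 then (e1.symm p.2 : V) else (e2.symm p.2 : V)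
    with hv
  have hv1 : ∀ i, v (true, i) ∈ Λ1 := fun i => by simp [hv]
  have hv2 : ∀ i, v (false, i) ∈ Λ2 := fun i => by simp [hv]
  have hΛ1' : ∀ w ∈ Λ1, w ∉ X := fun w hw => by
    have := hΛ1 hw; simpa using this
  have hΛ2' : ∀ w ∈ Λ2, w ∉ X ∧ w ∉ Λ1 := fun w hw => by
    have := hΛ2 hw; simpa [not_or] using this
  have hinj : Function.Injective v := by
    rintro ⟨d, i⟩ ⟨d', i'⟩ h
    cases d <;> cases d'
    · simp only [hv, Bool.false_eq_true, if_false] at h
      have := e2.symm.injective (Subtype.ext h)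
      rw [this]
    · exfalso
      have h1 := hv2 i
      have h2 := hv1 i'
      rw [h] at h1
      exact (hΛ2' _ h1).2 h2
    · exfalso
      have h1 := hv1 i
      have h2 := hv2 i'
      rw [← h] at h2
      exact (hΛ2' _ h2).2 h1
    · simp only [hv, if_true] at h
      have := e1.symm.injective (Subtype.ext h)
      rw [this]
  have hvΛ : ∀ p, v p ∈ Λ := by
    rintro ⟨d, i⟩
    cases d
    · exact Finset.mem_union_right _ (hv2 i)
    · exact Finset.mem_union_left _ (Finset.mem_union_right _ (hv1 i))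
  have hvX : ∀ p, v p ∉ X := by
    rintro ⟨d, i⟩
    cases d
    · exact (hΛ2' _ (hv2 i)).1
    · exact hΛ1' _ (hv1 i)
  obtain ⟨A, c', h1, h2, h3, h4, h5, h6, h7, h8⟩ := hub_family
    (fun p : Bool × Fin m => Rd T p.1) (fun p => hT.rd p.1) v hinj Λ hvΛ
    (fun p => if p.1 then δ1 else δ2) (by
      rintro ⟨d, i⟩
      cases d
      · simpa using hlow2 _ (hv2 i)
      · simpa using hlow1 _ (hv1 i)) c (by
      intro p
      have h := hdeg p.1 (v p)
      simp only [Fintype.card_prod, Fintype.card_bool, Fintype.card_fin]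
      omega)
  have hxA : ∀ p j, x j ∉ A p := by
    intro p j hmem
    have := h4 p hmem
    simp only [mem_insert, mem_sdiff, mem_univ, true_and] at this
    have hxX : x j ∈ X := by simp [hX]
    rcases this with h | h
    · exact hvX p (h ▸ hxX)
    · exact h (Finset.mem_union_left _ (Finset.mem_union_left _ hxX))
  have hcover : ∀ w, (∀ j, x j ≠ w) → (∀ d' i', w ∉ A (d', i')) → w ∉ Λ := by
    intro w hw1 hw2 hw
    simp only [hΛ, mem_union] at hw
    rcases hw with (hw | hw) | hw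
    · simp only [hX, mem_image, mem_univ, true_and] at hw
      obtain ⟨j, hj⟩ := hw
      exact hw1 j hj
    · have : v (true, e1 ⟨w, hw⟩) = w := by simp [hv]
      exact hw2 _ _ (this ▸ h2 (true, e1 ⟨w, hw⟩))
    · have : v (false, e2 ⟨w, hw⟩) = w := by simp [hv]
      exact hw2 _ _ (this ▸ h2 (false, e2 ⟨w, hw⟩))
  have hδΛ : ∀ d w, w ∉ Λ → (if d then δ1 else δ2) ≤ indeg (Rd T d) w := by
    intro d w hw
    simp only [hΛ, mem_union, not_or] at hw
    cases d
    · simpa using hup2 w (by simp [hw.1.1, hw.1.2, hw.2])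
    · simpa using hup1 w (by simp [hw.1.1, hw.1.2])
  refine ⟨fun d i => A (d, i), fun d i => c' (d, i), fun d => if d then δ1 else δ2,
    fun d i => h1 _, fun d i => h5 _, fun d i => h6 (d, i), fun d i d' i' h => h7 _ _ h,
    fun d i j => hxA _ j, ?_, ?_, ?_, ?_⟩
  · intro d
    cases d
    · simpa using hKδ2
    · simpa using hKδ1
  · intro d i
    exact hδΛ d _ (h3 (d, i))
  · intro d w hw1 hw2
    exact hδΛ d _ (hcover w hw1 hw2)
  · intro d i
    refine le_trans (Nat.mul_le_mul_right _ (Finset.card_le_card ?_)) (h8 (d, i))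
    intro w hw
    simp only [mem_filter, mem_univ, true_and] at hw ⊢
    exact ⟨hcover w hw.1 hw.2.1, fun j => hw.2.1 j.1 j.2, hw.2.2⟩

end Pool.Agent.W146.TP
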