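import Pool.Agent.W146.TPPriv

/-!
The partition obtained from a frame, and the choice of parameters.
-/

namespace Pool.Agent.W146.TP

open Finset
open scoped Classical

universe u

variable {V : Type u}

theorem frame_parts [Fintype V] {T : V → V → Prop} {t : ℕ} {x : Fin t → V} {K m n c : ℕ}
    (hT : IsTour T) (hdeg : ∀ d w, K ≤ indeg (Rd T d) w) (F : Frame T x K m n c)
    (k N S0 B : ℕ) (hk : 1 ≤ k) (ht : 1 ≤ t) (hN : N = k * t) (hm : m = n + N)
    (hS0 : t + 2 * m * (c + 2) + 4 * n ≤ S0) (hB : k * (2 * S0 + 2 * N) ≤ B)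
    (hK1 : S0 + (n + 1) * B < K) (hK2 : 2 * (B + S0) ≤ K)
    (hc : 2 * (2 * k + 1) * m ≤ 2 ^ (c + 1)) (hn : 4 * (36 * (2 * c + 8) + 1) * N ≤ n) :
    ∃ f : V → Fin t, (∀ j, f (x j) = j) ∧
      ∀ i, KStrong T k (univ.filter (fun w => f w = i)) := by
  have hNt : t ≤ N := by rw [hN]; exact Nat.le_mul_of_pos_left t hk
  have hN1 : 1 ≤ N := ht.trans hNt
  have hkB : k ≤ B := by
    refine le_trans ?_ hB
    exact Nat.le_mul_of_pos_right k (by omega)
  obtain ⟨rin, hrin⟩ := exists_rin F hdeg B S0 hS0 hK1
  obtain ⟨I, hI1, hI2, hI3⟩ := exists_cables F rin N hm hNt hn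
  obtain ⟨κ, hκ⟩ := exists_classes I k t ht (by rw [hI1, hN])
  have hU : ∀ d, ∃ κU : Fin m → Fin t, ∀ i,
      k ≤ ((univ.filter (fun j => Unused F d j)).filter (fun a => κU a = i)).card := fun d =>
    exists_classes (univ.filter (fun j => Unused F d j)) k t ht (by
      rw [card_unused]; omega)
  choose κU hκU using hU
  obtain ⟨f0, hf1, hf2, hf3, hf4⟩ := exists_f0 F rin I κ κU ht hI3
  obtain ⟨P, D, hD1, hD2, hP1, hP2, hP3, hP4⟩ :=
    exists_priv hT F rin I S0 B N k hrin hS0 hm hB hK2 hc
  set Fx : V → Prop := fun w => isSp (F.kind w) ∨ ∃ r ∈ I, F.kind w = .mid r with hFx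
  set par : V → V := fun z => if h : ∃ q, q ∈ D ∧ z ∈ P q then h.choose.2.2 else z with hpar
  have hpar' : ∀ q ∈ D, ∀ z ∈ P q, par z = q.2.2 := by
    intro q hq z hz
    have hex : ∃ q, q ∈ D ∧ z ∈ P q := ⟨q, hq, hz⟩
    have h1 : hex.choose = q := by
      by_contra hne
      exact Finset.disjoint_left.1 (hP4 _ hex.choose_spec.1 q hq hne) hex.choose_spec.2 hz
    simp only [hpar, hex, dif_pos, h1]
  have : NeZero t := ⟨by omega⟩
  obtain ⟨f, hfa, hfb⟩ := exists_parts Fx f0 par
  have hPFx : ∀ q ∈ D, ∀ z ∈ P q, ¬ Fx z := by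
    rintro ⟨d, s, w⟩ hq z hz hF
    cases s
    · obtain ⟨h1, h2⟩ := hP2 d w hq
      have h3 := h2 hz
      rcases hr : rin d w with _ | r
      · rw [hr] at h3
        simp only [Cand, mem_filter, mem_univ, true_and] at h3
        rcases hF with h | ⟨r, _, h⟩
        · rw [h3.1] at h; simp [isSp] at h
        · rw [h3.1] at h; simp at h
      · rw [hr] at h3
        simp only [Cand, mem_filter, mem_univ, true_and] at h3
        rcases hF with h | ⟨r', hr', h⟩
        · rw [h3.1] at h; simp [isSp] at h
        · rw [h3.1] at h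
          simp only [Kind.mid.injEq] at h
          subst h
          exact h1 r hr' hr
    · have h3 := hP3 d w hq hz
      simp only [CS, mem_filter, mem_univ, true_and] at h3
      rcases hF with h | ⟨r, _, h⟩
      · rw [h3.1] at h; simp [isSp] at h
      · rw [h3.1] at h; simp at h
  have hfP : ∀ q ∈ D, ∀ z ∈ P q, f z = f q.2.2 := by
    intro q hq z hz
    rw [hfb z (hPFx q hq z hz), hpar' q hq z hz]
  have hfsp : ∀ w, isSp (F.kind w) → f w = f0 w := fun w hw => hfa w (Or.inl hw)
  have hfmid : ∀ w r, r ∈ I → F.kind w = .mid r → f w = κ r := by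
    intro w r hr hw
    rw [hfa w (Or.inr ⟨r, hr, hw⟩), hf4 w r hw]
  have hfown : ∀ w r, r ∈ I → Own F w r → f w = κ r := by
    intro w r hr hw
    have hsp : isSp (F.kind w) := by
      rcases hw with h | h | h <;> rw [h] <;> simp [isSp]
    rw [hfsp w hsp, hf3 w r hr ⟨r, hw⟩ (Or.inl hw)]
  have hfun : ∀ d i w, Unused F d i → F.kind w = .hub d i → f w = κU d i := by
    intro d i w hu hw
    rw [hfsp w (by rw [hw]; simp [isSp]), hf2 d i w hu hw]
  -- private neighbours
  have hcls : ∀ q ∈ D, ∀ i, f q.2.2 = i → k ≤ ((univ.filter (fun w => f w = i)).filter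
      (fun z => z ∈ P q)).card := by
    intro q hq i hi
    rw [← hP1 q hq]
    refine Finset.card_le_card ?_
    intro z hz
    simp only [mem_filter, mem_univ, true_and]
    exact ⟨(hfP q hq z hz).trans hi, hz⟩
  have hstrong : ∀ d w, SD F d w → ∀ i, f w = i → k ≤ ((univ.filter (fun w => f w = i)).filter
      (fun z => z ∈ CS F d w)).card := by
    intro d w hw i hi
    refine (hcls _ (hD2 d w hw) i hi).trans (Finset.card_le_card ?_)
    intro z hz
    simp only [mem_filter, mem_univ, true_and] at hz ⊢
    exact ⟨hz.1, hP3 d w (hD2 d w hw) hz.2⟩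
  have hspec : ∀ d w, isSp (F.kind w) → ∀ i, f w = i →
      k ≤ ((univ.filter (fun w => f w = i)).filter (fun z => Rd T d z w ∧
        (F.kind z = .out ∨ ∃ r, F.kind z = .mid r))).card := by
    intro d w hw i hi
    by_cases hr : ∃ r ∈ I, rin d w = some r
    · obtain ⟨r, hrI, hr⟩ := hr
      have how : ∃ r, Own F w r := by
        rcases own_or_unused F hw with h | h
        · exact h
        · exact absurd hr (hI2 w h d r hrI)
      have h1 : f w = κ r := by
        rw [hfsp w hw, hf3 w r hrI how (Or.inr ⟨d, hr⟩)]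
      refine (hkB.trans (hrin d w)).trans (Finset.card_le_card ?_)
      intro z hz
      rw [hr] at hz
      simp only [Cand, mem_filter, mem_univ, true_and] at hz
      simp only [mem_filter, mem_univ, true_and]
      exact ⟨by rw [hfmid z r hrI hz.1, ← h1, hi], hz.2, Or.inr ⟨r, hz.1⟩⟩
    · push Not at hr
      have hd := hD1 d w hw hr
      refine (hcls _ hd i hi).trans (Finset.card_le_card ?_)
      intro z hz
      simp only [mem_filter, mem_univ, true_and] at hz ⊢
      refine ⟨hz.1, ?_⟩
      have h2 := (hP2 d w hd).2 hz.2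
      rcases hr' : rin d w with _ | r
      · rw [hr'] at h2
        simp only [Cand, mem_filter, mem_univ, true_and] at h2
        exact ⟨h2.2, Or.inl h2.1⟩
      · rw [hr'] at h2
        simp only [Cand, mem_filter, mem_univ, true_and] at h2
        exact ⟨h2.2, Or.inr ⟨r, h2.1⟩⟩
  refine ⟨f, ?_, ?_⟩
  · intro j
    have hkx : F.kind (x j) = .x j := (F.kind_x _ _).2 rfl
    rw [hfsp _ (by rw [hkx]; simp [isSp]), hf1]
  intro i
  set Pt : Finset V := univ.filter (fun w => f w = i) with hPt
  have hPtmem : ∀ w, w ∈ Pt ↔ f w = i := fun w => by simp [hPt]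
  set Ii : Finset (Fin n) := I.filter (fun r => κ r = i) with hIi
  have hIic : k ≤ Ii.card := hκ i
  have hctr : ∀ r ∈ Ii, ∀ d w, F.kind w = .hub d (F.ed d r) → w ∈ Pt := by
    intro r hr d w hw
    simp only [hIi, mem_filter] at hr
    rw [hPtmem, ← hr.2]
    refine hfown w r hr.1 ?_
    cases d
    · exact Or.inr (Or.inl hw)
    · exact Or.inl hw
  constructor
  · -- the class is large
    have h1 : ((univ : Finset Bool) ×ˢ Ii).card ≤ Pt.card := by
      refine Finset.card_le_card_of_injOn (fun p => F.ctr p.1 (F.ed p.1 p.2)) ?_ ?_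
      · rintro ⟨d, r⟩ hp
        rw [Finset.mem_coe] at hp ⊢
        simp only [mem_product, mem_univ, true_and] at hp
        exact hctr r hp d _ (F.kind_ctr _ _)
      · rintro ⟨d, r⟩ _ ⟨d', r'⟩ _ h
        have h2 : F.kind (F.ctr d (F.ed d r)) = F.kind (F.ctr d' (F.ed d' r')) :=
          congrArg F.kind h
        rw [F.kind_ctr, F.kind_ctr] at h2
        simp only [Kind.hub.injEq] at h2
        obtain ⟨rfl, h3⟩ := h2
        rw [F.ed_inj _ h3]
    rw [Finset.card_product, Finset.card_univ, Fintype.card_bool] at h1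
    omega
  · intro X hXP hX
    -- an intact cable
    obtain ⟨r0, hr0, hr0X⟩ := exists_avoid Ii
      (fun r => univ.filter (fun w => Own F w r ∨ F.kind w = .mid r)) k hIic (by
        intro r _ r' _ hne
        rw [Finset.disjoint_left]
        intro w hw hw'
        simp only [mem_filter, mem_univ, true_and] at hw hw'
        rcases hw with h | h
        · rcases hw' with h' | h'
          · exact hne (h.unique h')
          · rcases h with h | h | h <;> rw [h] at h' <;> simp at h'
        · rcases hw' with h' | h'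
          · rcases h' with h' | h' | h' <;> rw [h'] at h <;> simp at h
          · rw [h] at h'
            simp only [Kind.mid.injEq] at h'
            exact hne h') X hX
    have hr0' := hr0
    simp only [hIi, mem_filter] at hr0'
    have hcab : ∀ w, (Own F w r0 ∨ F.kind w = .mid r0) → w ∈ Pt ∧ w ∉ X := by
      intro w hw
      refine ⟨?_, fun hwX => Finset.disjoint_left.1 hr0X (by
        simp only [mem_filter, mem_univ, true_and]; exact hw) hwX⟩
      rw [hPtmem, ← hr0'.2]
      rcases hw with h | h
      · exact hfown w r0 hr0'.1 h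
      · exact hfmid w r0 hr0'.1 h
    have hownd : ∀ d w, F.kind w = .hub d (F.ed d r0) → Own F w r0 := by
      intro d w hw
      cases d
      · exact Or.inr (Or.inl hw)
      · exact Or.inl hw
    have half : ∀ d, ∀ z ∈ Pt \ X, Relation.ReflTransGen (StepIn (Rd T d) (Pt \ X))
        (F.ctr d (F.ed d r0)) z := by
      intro d
      have hTd := hT.rd d
      have hdom : ∀ i' z, (¬ ∀ a, F.kind a = .hub d i' → Rd T d z a) → F.kind z = .out →
          ∃ a, F.kind a = .hub d i' ∧ Rd T d a z := by
        intro i' z h hz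
        push Not at h
        obtain ⟨a, ha, haz⟩ := h
        refine ⟨a, ha, ?_⟩
        have hne : a ≠ z := by
          rintro rfl
          rw [ha] at hz
          simp at hz
        exact (hTd.2 a z hne).2 haz
      refine half_assembly (Rd T d) Pt X k hX (F.ctr d (F.ed d r0))
        (univ.filter (fun w => F.kind w = .hub d (F.ed d r0))) ?_ ?_ ?_
        ((univ.filter (fun j => Unused F d j)).filter (fun a => κU d a = i))
        (fun j => univ.filter (fun w => F.kind w = .hub d j)) (F.ctr d) (hκU d i) ?_ ?_ ?_ ?_ ?_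
        (fun z => (∃ r, F.kind z = .mid r) ∨ (F.kind z = .out ∧ ¬ Eun F d z))
        (fun z => F.kind z = .out ∧ Eun F d z)
        (fun z => isSp (F.kind z)) ?_ ?_ ?_ ?_
      · intro a ha
        simp only [mem_filter, mem_univ, true_and] at ha
        exact hcab a (Or.inl (hownd d a ha))
      · simp only [mem_filter, mem_univ, true_and]
        exact F.kind_ctr _ _
      · intro a ha hne
        simp only [mem_filter, mem_univ, true_and] at ha
        exact F.hub_src d _ a ha hne
      · intro j _ j' _ hne
        rw [Finset.disjoint_left]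
        intro w hw hw'
        simp only [mem_filter, mem_univ, true_and] at hw hw'
        rw [hw] at hw'
        simp only [Kind.hub.injEq, true_and] at hw'
        exact hne hw'
      · intro j _
        simp only [mem_filter, mem_univ, true_and]
        exact F.kind_ctr _ _
      · intro j hj a ha
        simp only [mem_filter, mem_univ, true_and] at ha hj
        rw [hPtmem, hfun d j a hj.1 ha, hj.2]
      · intro j _ a ha hne
        simp only [mem_filter, mem_univ, true_and] at ha
        exact F.hub_src d _ a ha hne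
      · intro j hj
        simp only [mem_filter, mem_univ, true_and] at hj
        have h1 : f (F.ctr d j) = i := by
          rw [hfun d j _ hj.1 (F.kind_ctr _ _), hj.2]
        refine (hstrong d (F.ctr d j) (Or.inl ⟨j, hj.1, rfl⟩) i h1).trans
          (Finset.card_le_card ?_)
        intro z hz
        simp only [CS, mem_filter, mem_univ, true_and] at hz ⊢
        refine ⟨(hPtmem z).2 hz.1, hz.2.2.2, ?_⟩
        obtain ⟨a, ha, haz⟩ := hdom (F.ed d r0) z (fun h => hz.2.2.1 ⟨_, h⟩) hz.2.1
        exact ⟨a, ha, haz⟩
      · intro z _ hg j hj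
        simp only [mem_filter, mem_univ, true_and] at hj
        rcases hg with ⟨r, hr⟩ | ⟨hz, hne⟩
        · refine ⟨F.ctr d j, ?_, F.mid_short d j hj.1 r z hr⟩
          simp only [mem_filter, mem_univ, true_and]
          exact F.kind_ctr _ _
        · obtain ⟨a, ha, haz⟩ := hdom j z (fun h => hne ⟨j, hj.1, h⟩) hz
          refine ⟨a, ?_, haz⟩
          simp only [mem_filter, mem_univ, true_and]
          exact ha
      · intro z hzP hg
        refine (hstrong d z (Or.inr hg) i ((hPtmem z).1 hzP)).trans (Finset.card_le_card ?_)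
        intro w hw
        simp only [CS, mem_filter, mem_univ, true_and] at hw ⊢
        exact ⟨(hPtmem w).2 hw.1, hw.2.2.2, Or.inr ⟨hw.2.1, fun h => hw.2.2.1 h.all⟩⟩
      · intro z hzP hg
        refine (hspec d z hg i ((hPtmem z).1 hzP)).trans (Finset.card_le_card ?_)
        intro w hw
        simp only [mem_filter, mem_univ, true_and] at hw ⊢
        refine ⟨(hPtmem w).2 hw.1, hw.2.1, ?_⟩
        rcases hw.2.2 with h | h
        · by_cases he : Eun F d w
          · exact Or.inr ⟨h, he⟩
          · exact Or.inl (Or.inr ⟨h, he⟩)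
        · exact Or.inl (Or.inl h)
      · intro z _
        rcases hkz : F.kind z with j | ⟨d', i'⟩ | r | r | _
        · right; right; simp [isSp]
        · right; right; simp [isSp]
        · right; right; simp [isSp]
        · left; left; exact ⟨r, rfl⟩
        · by_cases he : Eun F d z
          · right; left; exact ⟨rfl, he⟩
          · left; right; exact ⟨rfl, he⟩
    intro a ha b hb
    have h1 : Relation.ReflTransGen (StepIn T (Pt \ X)) a (F.ctr false (F.ed false r0)) := by
      have := half false a ha
      simp only [Rd, Bool.false_eq_true, if_false] at this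
      exact reach_flip this
    have h3 : Relation.ReflTransGen (StepIn T (Pt \ X)) (F.ctr true (F.ed true r0)) b := by
      have := half true b hb
      simpa only [Rd, if_true] using this
    have hm' : ∀ w, (Own F w r0 ∨ F.kind w = .mid r0) → w ∈ Pt \ X := by
      intro w hw
      rw [Finset.mem_sdiff]
      exact hcab w hw
    have h2 := F.path r0 (Pt \ X) (hm' _ (Or.inl (hownd false _ (F.kind_ctr _ _))))
      (hm' _ (Or.inl (hownd true _ (F.kind_ctr _ _)))) (fun w hw => hm' w (Or.inr hw))
      (fun w hw => hm' w (Or.inl (Or.inr (Or.inr hw))))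
    exact (h1.trans h2).trans h3

end Pool.Agent.W146.TP
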