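import Pool.Agent.W146.TPHubs

/-!
Existence of systems of disjoint paths (via Hall's theorem).
-/

namespace Pool.Agent.W146.TP

open Finset
open scoped Classical

universe u

variable {V : Type u}

/-- A system of `n` disjoint paths from starts `y` to targets `x` with interiors in `W`. -/
structure PSys (T : V → V → Prop) (W : Finset V) {m : ℕ} (y x : Fin m → V) (n : ℕ) where
  s : Fin n → Fin m
  e : Fin n → Fin m
  l : Fin n → ℕ
  p : Fin n → ℕ → V
  s_inj : Function.Injective s
  e_inj : Function.Injective e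
  p_zero : ∀ r, p r 0 = y (s r)
  p_end : ∀ r, p r (l r + 1) = x (e r)
  chain : ∀ r j, j ≤ l r → T (p r j) (p r (j + 1))
  memW : ∀ r j, 1 ≤ j → j ≤ l r → p r j ∈ W
  inj : ∀ r j r' j', 1 ≤ j → j ≤ l r → 1 ≤ j' → j' ≤ l r' → p r j = p r' j' → r = r' ∧ j = j'

theorem iter_cancel {τ : V → V} {L : Finset V} (hinj : Set.InjOn τ (L : Set V)) (a a' : V)
    (i d : ℕ) (h1 : ∀ l < i, τ^[l] a ∈ L) (h2 : ∀ l < i + d, τ^[l] a' ∈ L)
    (h : τ^[i] a = τ^[i + d] a') : a = τ^[d] a' := by
  induction i with
  | zero => simpa using h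
  | succ i ih =>
    refine ih (fun l hl => h1 l (by omega)) (fun l hl => h2 l (by omega)) ?_
    have e1 : i + 1 + d = (i + d) + 1 := by omega
    rw [e1, Function.iterate_succ_apply', Function.iterate_succ_apply'] at h
    exact hinj (h1 i (by omega)) (h2 (i + d) (by omega)) h

theorem hall_tau [Fintype V] {T : V → V → Prop} (W A0 B0 : Finset V) (n : ℕ)
    (hA : A0.card = n) (hB : B0.card = n)
    (hBW : Disjoint B0 W) (hAB : Disjoint A0 B0)
    (hsep : ∀ Z : Finset V, Z.card < n → StrongOn T ((W ∪ A0 ∪ B0) \ Z)) :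
    ∃ τ : V → V, Set.InjOn τ ((W ∪ A0 : Finset V) : Set V) ∧
      ∀ w ∈ W ∪ A0, τ w ∈ W ∪ B0 ∧ (τ w = w ∨ T w (τ w)) := by
  set L : Finset V := W ∪ A0 with hL
  set R : Finset V := W ∪ B0 with hR
  have hall : ∀ s : Finset {w // w ∈ L},
      s.card ≤ (s.biUnion (fun w => R.filter (fun z => z = w.1 ∨ T w.1 z))).card := by
    intro s
    by_contra hlt
    push Not at hlt
    set N := s.biUnion (fun w => R.filter (fun z => z = w.1 ∨ T w.1 z)) with hN
    set X : Finset V := s.image Subtype.val with hX
    have hXc : X.card = s.card := Finset.card_image_of_injective _ Subtype.val_injective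
    have hXL : X ⊆ L := by
      intro w hw
      simp only [hX, mem_image] at hw
      obtain ⟨a, _, rfl⟩ := hw
      exact a.2
    have hNmem : ∀ w ∈ X, ∀ z ∈ R, (z = w ∨ T w z) → z ∈ N := by
      intro w hw z hz h
      simp only [hX, mem_image] at hw
      obtain ⟨a, ha, rfl⟩ := hw
      simp only [hN, mem_biUnion, mem_filter]
      exact ⟨a, ha, hz, h⟩
    set Z : Finset V := (N \ X) ∪ (A0 \ X) with hZ
    have hZc : Z.card < n := by
      have h1 : X ∩ W ⊆ N ∩ X := by
        intro w hw
        simp only [mem_inter] at hw ⊢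
        exact ⟨hNmem w hw.1 w (by simp [hR, hw.2]) (Or.inl rfl), hw.1⟩
      have h2 := Finset.card_le_card h1
      have h3 : X ⊆ (X ∩ W) ∪ (A0 ∩ X) := by
        intro w hw
        have := hXL hw
        simp only [hL, mem_union, mem_inter] at this ⊢
        tauto
      have h4 := (Finset.card_le_card h3).trans (Finset.card_union_le _ _)
      have h5 : (N \ X).card + (N ∩ X).card = N.card := Finset.card_sdiff_add_card_inter _ _
      have h6 : (A0 \ X).card + (A0 ∩ X).card = A0.card := Finset.card_sdiff_add_card_inter _ _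
      have h7 : Z.card ≤ (N \ X).card + (A0 \ X).card := Finset.card_union_le _ _
      omega
    have hst := hsep Z hZc
    have hnA : ∃ a ∈ A0, a ∉ Z := by
      by_contra hcon
      push Not at hcon
      have := Finset.card_le_card (show A0 ⊆ Z from hcon)
      omega
    have hnB : ∃ b ∈ B0, b ∉ Z := by
      by_contra hcon
      push Not at hcon
      have := Finset.card_le_card (show B0 ⊆ Z from hcon)
      omega
    obtain ⟨a, ha, haZ⟩ := hnA
    obtain ⟨b, hb, hbZ⟩ := hnB
    have haX : a ∈ X := by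
      by_contra h
      exact haZ (by simp [hZ, ha, h])
    have hbX : b ∉ X := by
      intro h
      have := hXL h
      simp only [hL, mem_union] at this
      rcases this with h | h
      · exact Finset.disjoint_left.1 hBW hb h
      · exact Finset.disjoint_left.1 hAB h hb
    refine not_strong_of_closed (C := X) hst (a := a) (b := b) ?_ ?_ haX hbX ?_
    · simp only [hL, mem_sdiff, mem_union]; exact ⟨Or.inl (Or.inr ha), haZ⟩
    · simp only [hL, mem_sdiff, mem_union]; exact ⟨Or.inr hb, hbZ⟩
    · intro w hw z hz _ hwz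
      by_contra hzX
      simp only [hL, mem_sdiff, mem_union] at hz
      have : z ∈ Z := by
        rcases hz.1 with (h | h) | h
        · have := hNmem w hw z (by simp [hR, h]) (Or.inr hwz)
          simp [hZ, this, hzX]
        · simp [hZ, h, hzX]
        · have := hNmem w hw z (by simp [hR, h]) (Or.inr hwz)
          simp [hZ, this, hzX]
      exact hz.2 this
  obtain ⟨f, hf, hft⟩ := (Finset.all_card_le_biUnion_card_iff_exists_injective _).1 hall
  refine ⟨fun w => if h : w ∈ L then f ⟨w, h⟩ else w, ?_, ?_⟩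
  · intro a ha b hb hab
    have ha' : a ∈ L := ha
    have hb' : b ∈ L := hb
    simp only [ha', hb', dif_pos] at hab
    have := hf hab
    simpa using this
  · intro w hw
    simp only [hw, dif_pos]
    have := hft ⟨w, hw⟩
    simpa only [mem_filter] using this

theorem paths_exist [Fintype V] {T : V → V → Prop} (W : Finset V) (n : ℕ) (y x : Fin n → V)
    (hy : Function.Injective y) (hx : Function.Injective x)
    (hyW : ∀ i, y i ∉ W) (hxW : ∀ i, x i ∉ W) (hxy : ∀ i j, y i ≠ x j)
    (hsep : ∀ Z : Finset V, Z.card < n →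
      StrongOn T ((W ∪ univ.image y ∪ univ.image x) \ Z)) :
    ∃ (e : Fin n → Fin n) (l : Fin n → ℕ) (p : Fin n → ℕ → V),
      Function.Injective e ∧ (∀ r, p r 0 = y r) ∧ (∀ r, p r (l r + 1) = x (e r)) ∧
      (∀ r j, j ≤ l r → T (p r j) (p r (j + 1))) ∧
      (∀ r j, 1 ≤ j → j ≤ l r → p r j ∈ W) ∧
      (∀ r j r' j', 1 ≤ j → j ≤ l r → 1 ≤ j' → j' ≤ l r' → p r j = p r' j' →
        r = r' ∧ j = j') := by
  set A0 : Finset V := univ.image y with hA0
  set B0 : Finset V := univ.image x with hB0
  have hA : A0.card = n := by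
    rw [hA0, Finset.card_image_of_injective _ hy]; simp
  have hB : B0.card = n := by
    rw [hB0, Finset.card_image_of_injective _ hx]; simp
  have hBW : Disjoint B0 W := by
    rw [Finset.disjoint_left]
    intro w hw
    simp only [hB0, mem_image, mem_univ, true_and] at hw
    obtain ⟨i, rfl⟩ := hw
    exact hxW i
  have hAB : Disjoint A0 B0 := by
    rw [Finset.disjoint_left]
    intro w hw hw'
    simp only [hA0, hB0, mem_image, mem_univ, true_and] at hw hw'
    obtain ⟨i, rfl⟩ := hw
    obtain ⟨j, hj⟩ := hw'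
    exact hxy i j hj.symm
  obtain ⟨τ, hinj, hτ⟩ := hall_tau W A0 B0 n hA hB hBW hAB hsep
  have hyL : ∀ r, y r ∈ W ∪ A0 := fun r => by simp [hA0]
  have hyR : ∀ r, y r ∉ W ∪ B0 := by
    intro r h
    simp only [mem_union] at h
    rcases h with h | h
    · exact hyW r h
    · exact Finset.disjoint_left.1 hAB (by simp [hA0]) h
  -- orbits reach the targets
  have hreach : ∀ r, ∃ j, τ^[j + 1] (y r) ∈ B0 := by
    intro r
    by_contra hcon
    push Not at hcon
    have hall : ∀ j, τ^[j] (y r) ∈ W ∪ A0 := by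
      intro j
      induction j with
      | zero => simpa using hyL r
      | succ j ih =>
        have h1 := (hτ _ ih).1
        have h2 := hcon j
        rw [Function.iterate_succ_apply'] at h2 ⊢
        simp only [mem_union] at h1 ⊢
        tauto
    obtain ⟨i, j, hij, h⟩ := Finite.exists_ne_map_eq_of_infinite (fun j : ℕ => τ^[j] (y r))
    have main : ∀ i j : ℕ, i < j → τ^[i] (y r) = τ^[j] (y r) → False := by
      intro i j hij h
      obtain ⟨d, rfl⟩ := Nat.exists_eq_add_of_lt hij
      have h3 := iter_cancel hinj (y r) (y r) i (d + 1) (fun l _ => hall l) (fun l _ => hall l) h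
      rw [Function.iterate_succ_apply'] at h3
      have h4 := (hτ _ (hall d)).1
      rw [← h3] at h4
      exact hyR r h4
    rcases lt_or_gt_of_ne hij with h' | h'
    · exact main i j h' h
    · exact main j i h' h.symm
  set l : Fin n → ℕ := fun r => Nat.find (hreach r) with hl
  have hlend : ∀ r, τ^[l r + 1] (y r) ∈ B0 := fun r => Nat.find_spec (hreach r)
  have hlmin : ∀ r j, j < l r → τ^[j + 1] (y r) ∉ B0 := fun r j hj => Nat.find_min (hreach r) hj
  have hW : ∀ r j, j ≤ l r → τ^[j] (y r) ∈ W ∪ A0 ∧ (1 ≤ j → τ^[j] (y r) ∈ W) := by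
    intro r j
    induction j with
    | zero => intro _; exact ⟨by simpa using hyL r, fun h => absurd h (by omega)⟩
    | succ j ih =>
      intro hj
      have h1 := (hτ _ (ih (by omega)).1).1
      have h2 := hlmin r j (by omega)
      rw [Function.iterate_succ_apply'] at h2 ⊢
      simp only [mem_union] at h1 ⊢
      have h3 : τ (τ^[j] (y r)) ∈ W := by tauto
      exact ⟨Or.inl h3, fun _ => h3⟩
  have hco : ∀ r r' j d, j ≤ l r + 1 → j + d ≤ l r' + 1 →
      τ^[j] (y r) = τ^[j + d] (y r') → d = 0 ∧ r = r' := by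
    intro r r' j d hj hjd h
    have h3 := iter_cancel hinj (y r) (y r') j d (fun i hi => (hW r i (by omega)).1)
      (fun i hi => (hW r' i (by omega)).1) h
    rcases d with _ | d
    · exact ⟨rfl, hy (by simpa using h3)⟩
    · exfalso
      rw [Function.iterate_succ_apply'] at h3
      have h4 := (hτ _ (hW r' d (by omega)).1).1
      rw [← h3] at h4
      exact hyR r h4
  have hend : ∀ r, ∃ i, x i = τ^[l r + 1] (y r) := by
    intro r
    have := hlend r
    simpa [hB0] using this
  choose e he using hend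
  have hinj2 : ∀ r j r' j', j ≤ l r + 1 → j' ≤ l r' + 1 → τ^[j] (y r) = τ^[j'] (y r') →
      r = r' ∧ j = j' := by
    intro r j r' j' h1 h2 h
    rcases le_total j j' with h' | h'
    · obtain ⟨d, rfl⟩ := Nat.exists_eq_add_of_le h'
      have := hco r r' j d h1 h2 h
      exact ⟨this.2, by omega⟩
    · obtain ⟨d, rfl⟩ := Nat.exists_eq_add_of_le h'
      have := hco r' r j' d h2 h1 h.symm
      exact ⟨this.2.symm, by omega⟩
  refine ⟨e, l, fun r j => τ^[j] (y r), ?_, fun r => rfl, fun r => (he r).symm, ?_, ?_, ?_⟩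
  · intro r r' h
    have h1 : τ^[l r + 1] (y r) = τ^[l r' + 1] (y r') := by rw [← he r, ← he r', h]
    exact (hinj2 r _ r' _ le_rfl le_rfl h1).1
  · intro r j hj
    have h1 := (hτ _ (hW r j hj).1).2
    simp only [Function.iterate_succ_apply']
    rcases h1 with h1 | h1
    · exfalso
      have h2 : τ^[j + 1] (y r) = τ^[j] (y r) := by rw [Function.iterate_succ_apply']; exact h1
      have := (hinj2 r (j + 1) r j (by omega) (by omega) h2).2
      omega
    · exact h1
  · intro r j h1 h2
    exact (hW r j h2).2 h1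
  · intro r j r' j' _ h2 _ h4 h
    exact hinj2 r j r' j' (by omega) (by omega) h

theorem psys_exist [Fintype V] {T : V → V → Prop} (W : Finset V) {m : ℕ} (n : ℕ) (hnm : n ≤ m)
    (y x : Fin m → V)
    (hy : Function.Injective y) (hx : Function.Injective x)
    (hyW : ∀ i, y i ∉ W) (hxW : ∀ i, x i ∉ W) (hxy : ∀ i j, y i ≠ x j)
    (hsep : ∀ (A B Z : Finset V), Z.card < n →
      A ⊆ univ.image y → B ⊆ univ.image x → StrongOn T ((W ∪ A ∪ B) \ Z)) :
    Nonempty (PSys T W y x n) := by
  obtain ⟨e, l, p, h1, h2, h3, h4, h5, h6⟩ := paths_exist (T := T) W n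
    (fun i => y (Fin.castLE hnm i)) (fun i => x (Fin.castLE hnm i))
    (hy.comp (Fin.castLE_injective hnm)) (hx.comp (Fin.castLE_injective hnm))
    (fun i => hyW _) (fun i => hxW _) (fun i j => hxy _ _)
    (fun Z hZ => hsep _ _ Z hZ (by
      intro w hw
      simp only [mem_image, mem_univ, true_and] at hw ⊢
      obtain ⟨i, rfl⟩ := hw
      exact ⟨_, rfl⟩) (by
      intro w hw
      simp only [mem_image, mem_univ, true_and] at hw ⊢
      obtain ⟨i, rfl⟩ := hw
      exact ⟨_, rfl⟩))
  exact ⟨{
    s := Fin.castLE hnm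
    e := fun r => Fin.castLE hnm (e r)
    l := l
    p := p
    s_inj := Fin.castLE_injective hnm
    e_inj := (Fin.castLE_injective hnm).comp h1
    p_zero := h2
    p_end := h3
    chain := h4
    memW := h5
    inj := h6 }⟩

end Pool.Agent.W146.TP
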