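import Pool.Agent.W146.TPSel

/-!
Initial classes and private neighbourhoods.
-/

namespace Pool.Agent.W146.TP

open Finset
open scoped Classical

universe u

variable {V : Type u}

section

variable [Fintype V] {T : V → V → Prop} {t : ℕ} {x : Fin t → V} {K m n c : ℕ}

theorem exists_f0 (F : Frame T x K m n c) (rin : Bool → V → Option (Fin n))
    (I : Finset (Fin n)) (κ : Fin n → Fin t) (κU : Bool → Fin m → Fin t) (ht : 1 ≤ t)
    (hI3 : ∀ w, (∃ r, Own F w r) → ∀ r ∈ I, ∀ r' ∈ I,
        (Own F w r ∨ ∃ d, rin d w = some r) → (Own F w r' ∨ ∃ d, rin d w = some r') → r = r') :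
    ∃ f0 : V → Fin t, (∀ j, f0 (x j) = j) ∧
      (∀ d i w, Unused F d i → F.kind w = .hub d i → f0 w = κU d i) ∧
      (∀ w r, r ∈ I → (∃ r', Own F w r') → (Own F w r ∨ ∃ d, rin d w = some r) → f0 w = κ r) ∧
      (∀ w r, F.kind w = .mid r → f0 w = κ r) := by
  have : NeZero t := ⟨by omega⟩
  set sel : V → Fin t := fun w => if h : ∃ r, r ∈ I ∧ (Own F w r ∨ ∃ d, rin d w = some r) then
    κ h.choose else 0 with hsel
  set g : V → Kind t m n → Fin t := fun w κ' => match κ' with
    | .x j => j
    | .hub d i => if Unused F d i then κU d i else sel w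
    | .ends _ => sel w
    | .mid r => κ r
    | .out => 0 with hg
  refine ⟨fun w => g w (F.kind w), ?_, ?_, ?_, ?_⟩
  · intro j
    have : F.kind (x j) = .x j := (F.kind_x _ _).2 rfl
    simp only [this, hg]
  · intro d i w hu hk
    simp only [hk, hg, hu, if_true]
  · intro w r hr how hrel
    have h1 : sel w = κ r := by
      have hex : ∃ r, r ∈ I ∧ (Own F w r ∨ ∃ d, rin d w = some r) := ⟨r, hr, hrel⟩
      simp only [hsel, hex, dif_pos]
      have := hI3 w how _ hex.choose_spec.1 r hr hex.choose_spec.2 hrel
      rw [this]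
    obtain ⟨r', h | h | h⟩ := how
    · have hu : ¬ Unused F true (F.ed true r') := fun h => h r' rfl
      simp only [h, hg, hu, if_false]
      exact h1
    · have hu : ¬ Unused F false (F.ed false r') := fun h => h r' rfl
      simp only [h, hg, hu, if_false]
      exact h1
    · simp only [h, hg]
      exact h1
  · intro w r hk
    simp only [hk, hg]

/-- Dominating some complete hub. -/
def Eall (F : Frame T x K m n c) (d : Bool) (z : V) : Prop :=
  ∃ i, ∀ a, F.kind a = .hub d i → Rd T d z a

/-- Dominating some complete unused hub. -/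
def Eun (F : Frame T x K m n c) (d : Bool) (z : V) : Prop :=
  ∃ i, Unused F d i ∧ ∀ a, F.kind a = .hub d i → Rd T d z a

theorem Eun.all {F : Frame T x K m n c} {d : Bool} {z : V} (h : Eun F d z) : Eall F d z := by
  obtain ⟨i, _, h⟩ := h
  exact ⟨i, h⟩

/-- The exceptional set. -/
noncomputable def ESet (F : Frame T x K m n c) (d : Bool) : Finset V :=
  univ.filter (fun z => F.kind z = .out ∧ Eall F d z)

theorem card_ESet (F : Frame T x K m n c) (d : Bool) :
    (ESet F d).card * 2 ^ (c + 1) ≤ m * F.δ d := by
  have h : ESet F d ⊆ (univ : Finset (Fin m)).biUnion (fun i => univ.filter (fun w =>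
      F.kind w = .out ∧ ∀ a, F.kind a = .hub d i → Rd T d w a)) := by
    intro z hz
    simp only [ESet, mem_filter, mem_univ, true_and] at hz
    obtain ⟨h1, i, h2⟩ := hz
    simp only [mem_biUnion, mem_filter, mem_univ, true_and]
    exact ⟨i, h1, h2⟩
  calc (ESet F d).card * 2 ^ (c + 1)
      ≤ (∑ i : Fin m, (univ.filter (fun w => F.kind w = .out ∧ ∀ a, F.kind a = .hub d i →
          Rd T d w a)).card) * 2 ^ (c + 1) :=
        Nat.mul_le_mul_right _ ((Finset.card_le_card h).trans Finset.card_biUnion_le)
    _ = ∑ i : Fin m, ((univ.filter (fun w => F.kind w = .out ∧ ∀ a, F.kind a = .hub d i →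
          Rd T d w a)).card * 2 ^ (c + 1)) := by rw [Finset.sum_mul]
    _ ≤ ∑ _i : Fin m, F.δ d := Finset.sum_le_sum (fun i _ => F.E_card d i)
    _ = m * F.δ d := by simp

/-- Vertices demanding strong private neighbours. -/
def SD (F : Frame T x K m n c) (d : Bool) (w : V) : Prop :=
  (∃ i, Unused F d i ∧ w = F.ctr d i) ∨ (F.kind w = .out ∧ Eun F d w)

/-- Strong candidates. -/
noncomputable def CS (F : Frame T x K m n c) (d : Bool) (w : V) : Finset V :=
  univ.filter (fun z => F.kind z = .out ∧ ¬ Eall F d z ∧ Rd T d z w)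

theorem card_CS (hT : IsTour T) (F : Frame T x K m n c) (S0 : ℕ)
    (hS0 : t + 2 * m * (c + 2) + 4 * n ≤ S0) (d : Bool) (w : V) (hw : SD F d w) :
    F.δ d ≤ S0 + (CS F d w).card + (ESet F d).card := by
  have h1 : F.δ d ≤ indeg (Rd T d) w := by
    rcases hw with ⟨i, _, rfl⟩ | ⟨h, _⟩
    · exact F.ctr_deg d i
    · exact F.out_deg d w h
  have h2 : ∀ r q, F.kind q = .mid r → ¬ Rd T d q w := by
    intro r q hq
    rcases hw with ⟨i, hi, rfl⟩ | ⟨h, i, hi, hdom⟩
    · have h3 := F.mid_short d i hi r q hq
      have hne : F.ctr d i ≠ q := by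
        intro h
        have := F.kind_ctr d i
        rw [h, hq] at this
        simp at this
      exact ((hT.rd d).2 _ _ hne).1 h3
    · exact F.out_short d i hi w h (hdom _ (F.kind_ctr d i)) r q hq
  have hsub : univ.filter (fun z => Rd T d z w) ⊆
      (univ.filter (fun w => isSp (F.kind w)) ∪ CS F d w) ∪ ESet F d := by
    intro z hz
    simp only [mem_filter, mem_univ, true_and] at hz
    simp only [mem_union, mem_filter, mem_univ, true_and, CS, ESet]
    rcases hk : F.kind z with j | ⟨d', i⟩ | r | r | _
    · left; left; simp [isSp]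
    · left; left; simp [isSp]
    · left; left; simp [isSp]
    · exact absurd hz (h2 r z hk)
    · by_cases he : Eall F d z
      · right; exact ⟨rfl, he⟩
      · left; right; exact ⟨rfl, he, hz⟩
  have h3 := (Finset.card_le_card hsub).trans (Finset.card_union_le _ _)
  have h4 := Finset.card_union_le (univ.filter (fun w => isSp (F.kind w))) (CS F d w)
  have h5 := card_sp F
  unfold indeg at h1
  omega

theorem exists_priv (hT : IsTour T) (F : Frame T x K m n c)
    (rin : Bool → V → Option (Fin n)) (I : Finset (Fin n)) (S0 B N k : ℕ)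
    (hrin : ∀ d w, B ≤ (Cand F d w (rin d w)).card)
    (hS0 : t + 2 * m * (c + 2) + 4 * n ≤ S0) (hm : m = n + N)
    (hB : k * (2 * S0 + 2 * N) ≤ B) (hK2 : 2 * (B + S0) ≤ K)
    (hc : 2 * (2 * k + 1) * m ≤ 2 ^ (c + 1)) :
    ∃ (P : Bool × Bool × V → Finset V) (D : Finset (Bool × Bool × V)),
      (∀ d w, isSp (F.kind w) → (∀ r ∈ I, rin d w ≠ some r) → (d, false, w) ∈ D) ∧
      (∀ d w, SD F d w → (d, true, w) ∈ D) ∧
      (∀ q ∈ D, (P q).card = k) ∧
      (∀ d w, (d, false, w) ∈ D → (∀ r ∈ I, rin d w ≠ some r) ∧
        P (d, false, w) ⊆ Cand F d w (rin d w)) ∧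
      (∀ d w, (d, true, w) ∈ D → P (d, true, w) ⊆ CS F d w) ∧
      (∀ q ∈ D, ∀ q' ∈ D, q ≠ q' → Disjoint (P q) (P q')) := by
  set C : Bool × Bool × V → Finset V := fun q =>
    if q.2.1 then CS F q.1 q.2.2 else Cand F q.1 q.2.2 (rin q.1 q.2.2) with hC
  set D : Finset (Bool × Bool × V) := univ.filter (fun q =>
    if q.2.1 then SD F q.1 q.2.2 else
      (isSp (F.kind q.2.2) ∧ ∀ r ∈ I, rin q.1 q.2.2 ≠ some r)) with hD
  have hall : ∀ A ⊆ D, A.Nonempty → ∃ q ∈ A, k * A.card ≤ (C q).card := by
    intro A hA hne
    set A0 := A.filter (fun q => q.2.1 = false) with hA0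
    set A1 : Bool → Finset (Bool × Bool × V) := fun d => A.filter (fun q => q.2.1 = true ∧ q.1 = d)
      with hA1
    have hcard : A.card ≤ A0.card + (A1 true).card + (A1 false).card := by
      have hsub : A ⊆ (A0 ∪ A1 true) ∪ A1 false := by
        rintro ⟨d, s, w⟩ hq
        simp only [hA0, hA1, mem_union, mem_filter, hq, true_and]
        cases s <;> cases d <;> simp
      have h1 := (Finset.card_le_card hsub).trans (Finset.card_union_le _ _)
      have h2 := Finset.card_union_le A0 (A1 true)
      omega
    have hA0c : A0.card ≤ 2 * S0 := by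
      have h1 : A0.card ≤ ((univ : Finset Bool) ×ˢ
          (univ.filter (fun w => isSp (F.kind w)))).card := by
        refine Finset.card_le_card_of_injOn (fun q => (q.1, q.2.2)) ?_ ?_
        · rintro ⟨d, s, w⟩ hq
          rw [Finset.mem_coe] at hq ⊢
          simp only [hA0, mem_filter] at hq
          have h2 := hA hq.1
          simp only [hD, mem_filter, mem_univ, true_and] at h2
          rw [hq.2] at h2
          simp only [Bool.false_eq_true, if_false] at h2
          simp only [mem_product, mem_univ, mem_filter, true_and]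
          exact h2.1
        · rintro ⟨d, s, w⟩ hq ⟨d', s', w'⟩ hq' h
          rw [Finset.mem_coe] at hq hq'
          simp only [hA0, mem_filter] at hq hq'
          simp only [Prod.mk.injEq] at h ⊢
          exact ⟨h.1, hq.2.trans hq'.2.symm, h.2⟩
      rw [Finset.card_product, Finset.card_univ, Fintype.card_bool] at h1
      have h2 := card_sp F
      omega
    have hA1c : ∀ d, (A1 d).card ≤ N + (ESet F d).card := by
      intro d
      have h1 : (A1 d).card ≤ ((univ.filter (fun i => Unused F d i)).image (F.ctr d) ∪
          ESet F d).card := by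
        refine Finset.card_le_card_of_injOn (fun q => q.2.2) ?_ ?_
        · rintro ⟨d', s, w⟩ hq
          rw [Finset.mem_coe] at hq ⊢
          simp only [hA1, mem_filter] at hq
          obtain ⟨hq1, rfl, rfl⟩ := hq
          have h2 := hA hq1
          simp only [hD, mem_filter, mem_univ, true_and, if_true] at h2
          simp only [mem_union, mem_image, mem_filter, mem_univ, true_and, ESet]
          rcases h2 with ⟨i, h3, h4⟩ | ⟨h3, h4⟩
          · exact Or.inl ⟨i, h3, h4.symm⟩
          · exact Or.inr ⟨h3, h4.all⟩
        · rintro ⟨d1, s, w⟩ hq ⟨d2, s', w'⟩ hq' h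
          rw [Finset.mem_coe] at hq hq'
          simp only [hA1, mem_filter] at hq hq'
          simp only [Prod.mk.injEq]
          exact ⟨hq.2.2.trans hq'.2.2.symm, hq.2.1.trans hq'.2.1.symm, h⟩
      have h2 := Finset.card_union_le ((univ.filter (fun i => Unused F d i)).image (F.ctr d))
        (ESet F d)
      have h3 := (Finset.card_image_le (s := univ.filter (fun i => Unused F d i))
        (f := F.ctr d))
      have h4 := card_unused F d
      omega
    have hE : ∀ d, 2 * (2 * k + 1) * (ESet F d).card ≤ F.δ d := by
      intro d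
      have h1 := card_ESet F d
      have h2 : m * (2 * (2 * k + 1) * (ESet F d).card) ≤ m * F.δ d := by
        calc m * (2 * (2 * k + 1) * (ESet F d).card) = (ESet F d).card * (2 * (2 * k + 1) * m) := by
              ring
          _ ≤ (ESet F d).card * 2 ^ (c + 1) := Nat.mul_le_mul_left _ hc
          _ ≤ _ := h1
      rcases Nat.eq_zero_or_pos m with h0 | h0
      · have h3 : (ESet F d).card = 0 := by
          have : ESet F d = ∅ := by
            rw [Finset.eq_empty_iff_forall_notMem]
            intro z hz
            simp only [ESet, mem_filter, mem_univ, true_and] at hz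
            obtain ⟨_, i, _⟩ := hz
            exact absurd i.2 (by omega)
          rw [this]; rfl
        rw [h3]; simp
      · exact Nat.le_of_mul_le_mul_left h2 h0
    have strong : ∀ d d', (A1 d).Nonempty → d ≠ d' → (A1 d' = ∅ ∨ F.δ d' ≤ F.δ d) →
        ∃ q ∈ A, k * A.card ≤ (C q).card := by
      intro d d' hne' hdd' hor
      obtain ⟨q, hq⟩ := hne'
      have hqA : q ∈ A := (Finset.mem_filter.1 hq).1
      have hq2 := (Finset.mem_filter.1 hq).2
      refine ⟨q, hqA, ?_⟩
      have h1 := hA hqA
      simp only [hD, mem_filter, mem_univ, true_and, hq2.1, hq2.2, if_true] at h1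
      have h2 := card_CS hT F S0 hS0 d q.2.2 h1
      have h3 : C q = CS F d q.2.2 := by
        simp only [hC, hq2.1, hq2.2, if_true]
      rw [h3]
      have h4 := hA1c d
      have h5 := hA1c d'
      have h6 := hE d
      have h7 := hE d'
      have h8 := F.δ_ge d
      have hcard' : A.card ≤ A0.card + (A1 d).card + (A1 d').card := by
        cases d <;> cases d'
        · exact absurd rfl hdd'
        · omega
        · omega
        · exact absurd rfl hdd'
      -- there is a bound `e'` for the exceptional set in the other direction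
      have h9 : ∃ e', (A1 d').card ≤ N + e' ∧ 2 * (2 * k + 1) * e' ≤ F.δ d := by
        rcases hor with h | h
        · exact ⟨0, by rw [h]; simp, by simp⟩
        · exact ⟨_, h5, h7.trans h⟩
      obtain ⟨e', h10, h11⟩ := h9
      set e := (ESet F d).card with he
      have h12 : A.card ≤ 2 * S0 + (N + e) + (N + e') := by omega
      have h13 : k * A.card ≤ k * (2 * S0 + 2 * N) + (k * e + k * e') := by
        calc k * A.card ≤ k * (2 * S0 + (N + e) + (N + e')) := Nat.mul_le_mul_left _ h12
          _ = _ := by ring
      have h14 : 2 * ((k + 1) * e + k * e') ≤ F.δ d := by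
        have a1 : (2 * k + 1) * (2 * ((k + 1) * e + k * e')) ≤ (2 * k + 1) * F.δ d := by
          calc (2 * k + 1) * (2 * ((k + 1) * e + k * e'))
              = (k + 1) * (2 * (2 * k + 1) * e) + k * (2 * (2 * k + 1) * e') := by ring
            _ ≤ (k + 1) * F.δ d + k * F.δ d :=
                Nat.add_le_add (Nat.mul_le_mul_left _ h6) (Nat.mul_le_mul_left _ h11)
            _ = _ := by ring
        exact Nat.le_of_mul_le_mul_left a1 (by omega)
      have h15 : (k + 1) * e = k * e + e := by ring
      omega
    by_cases ht1 : (A1 true).Nonempty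
    · by_cases hf1 : (A1 false).Nonempty
      · rcases le_total (F.δ false) (F.δ true) with h | h
        · exact strong true false ht1 (by simp) (Or.inr h)
        · exact strong false true hf1 (by simp) (Or.inr h)
      · rw [Finset.not_nonempty_iff_eq_empty] at hf1
        exact strong true false ht1 (by simp) (Or.inl hf1)
    · rw [Finset.not_nonempty_iff_eq_empty] at ht1
      by_cases hf1 : (A1 false).Nonempty
      · exact strong false true hf1 (by simp) (Or.inl ht1)
      · rw [Finset.not_nonempty_iff_eq_empty] at hf1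
        obtain ⟨q, hq⟩ := hne
        have hq0 : q.2.1 = false := by
          by_contra h
          have h' : q.2.1 = true := by simpa using h
          rcases hd : q.1 with _ | _
          · have : q ∈ A1 false := by simp [hA1, hq, h', hd]
            rw [hf1] at this; simp at this
          · have : q ∈ A1 true := by simp [hA1, hq, h', hd]
            rw [ht1] at this; simp at this
        refine ⟨q, hq, ?_⟩
        have h1 : C q = Cand F q.1 q.2.2 (rin q.1 q.2.2) := by
          simp only [hC, hq0, Bool.false_eq_true, if_false]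
        rw [h1]
        refine le_trans ?_ (hrin q.1 q.2.2)
        refine le_trans (Nat.mul_le_mul_left k ?_) hB
        rw [ht1, hf1, Finset.card_empty] at hcard
        omega
  obtain ⟨P, hP1, hP2⟩ := exists_private C D k hall
  refine ⟨P, D, ?_, ?_, fun q hq => (hP1 q hq).2, ?_, ?_, hP2⟩
  · intro d w h1 h2
    simp only [hD, mem_filter, mem_univ, true_and, Bool.false_eq_true, if_false]
    exact ⟨h1, h2⟩
  · intro d w h1
    simp only [hD, mem_filter, mem_univ, true_and, if_true]
    exact h1
  · intro d w h1
    have h2 := (hP1 _ h1).1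
    simp only [hD, mem_filter, mem_univ, true_and, Bool.false_eq_true, if_false] at h1
    refine ⟨h1.2, ?_⟩
    simpa only [hC, Bool.false_eq_true, if_false] using h2
  · intro d w h1
    have h2 := (hP1 _ h1).1
    simpa only [hC, if_true] using h2

end

end Pool.Agent.W146.TP
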