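import Pool.Agent.W146.TPFrame

/-!
Special vertices, their rich neighbourhoods and the selection of cables.
-/

namespace Pool.Agent.W146.TP

open Finset
open scoped Classical

universe u

variable {V : Type u}

/-- The special kinds. -/
def isSp {t m n : ℕ} : Kind t m n → Prop
  | .x _ => True
  | .hub _ _ => True
  | .ends _ => True
  | .mid _ => False
  | .out => False

theorem card_hubs [Fintype V] {T : V → V → Prop} {t : ℕ} {x : Fin t → V} {K m n c : ℕ}
    (F : Frame T x K m n c) (J : Finset (Bool × Fin m)) :
    (univ.filter (fun w => ∃ p ∈ J, F.kind w = .hub p.1 p.2)).card ≤ J.card * (c + 2) := by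
  have h : univ.filter (fun w => ∃ p ∈ J, F.kind w = .hub p.1 p.2) ⊆
      J.biUnion (fun p => univ.filter (fun w => F.kind w = .hub p.1 p.2)) := by
    intro w hw
    simp only [mem_filter, mem_univ, true_and] at hw
    simp only [mem_biUnion, mem_filter, mem_univ, true_and]
    exact hw
  refine (Finset.card_le_card h).trans ((Finset.card_biUnion_le).trans ?_)
  exact Finset.sum_le_card_nsmul _ _ _ (fun p _ => F.hub_card p.1 p.2)

theorem card_xs [Fintype V] {T : V → V → Prop} {t : ℕ} {x : Fin t → V} {K m n c : ℕ}
    (F : Frame T x K m n c) :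
    (univ.filter (fun w => ∃ j, F.kind w = .x j)).card ≤ t := by
  have h : univ.filter (fun w => ∃ j, F.kind w = .x j) ⊆ univ.image x := by
    intro w hw
    simp only [mem_filter, mem_univ, true_and] at hw
    obtain ⟨j, hj⟩ := hw
    simp only [mem_image, mem_univ, true_and]
    exact ⟨j, ((F.kind_x w j).1 hj).symm⟩
  refine (Finset.card_le_card h).trans (Finset.card_image_le.trans ?_)
  simp

theorem card_ends [Fintype V] {T : V → V → Prop} {t : ℕ} {x : Fin t → V} {K m n c : ℕ}
    (F : Frame T x K m n c) :
    (univ.filter (fun w => ∃ r, F.kind w = .ends r)).card ≤ 4 * n := by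
  have h : univ.filter (fun w => ∃ r, F.kind w = .ends r) ⊆
      (univ : Finset (Fin n)).biUnion (fun r => univ.filter (fun w => F.kind w = .ends r)) := by
    intro w hw
    simp only [mem_filter, mem_univ, true_and] at hw
    simp only [mem_biUnion, mem_filter, mem_univ, true_and]
    exact hw
  refine (Finset.card_le_card h).trans ((Finset.card_biUnion_le).trans ?_)
  refine (Finset.sum_le_card_nsmul _ _ _ (fun r _ => F.ends_card r)).trans ?_
  simp [mul_comm]

theorem card_sp [Fintype V] {T : V → V → Prop} {t : ℕ} {x : Fin t → V} {K m n c : ℕ}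
    (F : Frame T x K m n c) :
    (univ.filter (fun w => isSp (F.kind w))).card ≤ t + 2 * m * (c + 2) + 4 * n := by
  have h : univ.filter (fun w => isSp (F.kind w)) ⊆
      (univ.filter (fun w => ∃ j, F.kind w = .x j) ∪
      univ.filter (fun w => ∃ p ∈ (univ : Finset (Bool × Fin m)), F.kind w = .hub p.1 p.2)) ∪
      univ.filter (fun w => ∃ r, F.kind w = .ends r) := by
    intro w hw
    simp only [mem_filter, mem_univ, true_and] at hw
    simp only [mem_union, mem_filter, mem_univ, true_and]
    rcases hk : F.kind w with j | ⟨d, i⟩ | r | r | _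
    · left; left; exact ⟨j, rfl⟩
    · left; right; exact ⟨(d, i), rfl⟩
    · right; exact ⟨r, rfl⟩
    · rw [hk] at hw; exact absurd hw (by simp [isSp])
    · rw [hk] at hw; exact absurd hw (by simp [isSp])
  have h1 := card_xs F
  have h2 := card_hubs F univ
  have h3 := card_ends F
  have h4 := (Finset.card_le_card h).trans (Finset.card_union_le _ _)
  have h5 := Finset.card_union_le (univ.filter (fun w => ∃ j, F.kind w = .x j))
    (univ.filter (fun w => ∃ p ∈ (univ : Finset (Bool × Fin m)), F.kind w = .hub p.1 p.2))
  have h6 : (univ : Finset (Bool × Fin m)).card = 2 * m := by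
    simp [Finset.card_univ]
  rw [h6] at h2
  omega

/-- The candidate in-neighbours of a vertex. -/
noncomputable def Cand [Fintype V] {T : V → V → Prop} {t : ℕ} {x : Fin t → V} {K m n c : ℕ}
    (F : Frame T x K m n c) (d : Bool) (w : V) : Option (Fin n) → Finset V
  | none => univ.filter (fun z => F.kind z = .out ∧ Rd T d z w)
  | some r => univ.filter (fun z => F.kind z = .mid r ∧ Rd T d z w)

theorem exists_rin [Fintype V] {T : V → V → Prop} {t : ℕ} {x : Fin t → V} {K m n c : ℕ}
    (F : Frame T x K m n c) (hdeg : ∀ d w, K ≤ indeg (Rd T d) w) (B S0 : ℕ)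
    (hS0 : t + 2 * m * (c + 2) + 4 * n ≤ S0) (hK : S0 + (n + 1) * B < K) :
    ∃ rin : Bool → V → Option (Fin n), ∀ d w, B ≤ (Cand F d w (rin d w)).card := by
  have key : ∀ d w, ∃ ρ : Option (Fin n), B ≤ (Cand F d w ρ).card := by
    intro d w
    by_contra hcon
    push Not at hcon
    have hsub : univ.filter (fun z => Rd T d z w) ⊆
        (univ.filter (fun w => isSp (F.kind w)) ∪ Cand F d w none) ∪
        (univ : Finset (Fin n)).biUnion (fun r => Cand F d w (some r)) := by
      intro z hz
      simp only [mem_filter, mem_univ, true_and] at hz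
      simp only [mem_union, mem_filter, mem_univ, true_and, mem_biUnion, Cand]
      rcases hk : F.kind z with j | ⟨d', i⟩ | r | r | _
      · left; left; simp [isSp]
      · left; left; simp [isSp]
      · left; left; simp [isSp]
      · right; exact ⟨r, rfl, hz⟩
      · left; right; exact ⟨rfl, hz⟩
    have h1 := (Finset.card_le_card hsub).trans (Finset.card_union_le _ _)
    have h2 := Finset.card_union_le (univ.filter (fun w => isSp (F.kind w))) (Cand F d w none)
    have h3 := card_sp F
    have h4 := hcon none
    have h5 : ((univ : Finset (Fin n)).biUnion (fun r => Cand F d w (some r))).card ≤ n * B := by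
      refine (Finset.card_biUnion_le).trans ?_
      refine (Finset.sum_le_card_nsmul _ _ B (fun r _ => (hcon (some r)).le)).trans ?_
      simp
    have h6 := hdeg d w
    unfold indeg at h6
    have h7 : (n + 1) * B = n * B + B := by ring
    omega
  choose rin hrin using key
  exact ⟨rin, hrin⟩

/-- A used vertex of the path number `r`. -/
def Own [Fintype V] {T : V → V → Prop} {t : ℕ} {x : Fin t → V} {K m n c : ℕ}
    (F : Frame T x K m n c) (w : V) (r : Fin n) : Prop :=
  F.kind w = .hub true (F.ed true r) ∨ F.kind w = .hub false (F.ed false r) ∨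
    F.kind w = .ends r

/-- An unused hub index. -/
def Unused [Fintype V] {T : V → V → Prop} {t : ℕ} {x : Fin t → V} {K m n c : ℕ}
    (F : Frame T x K m n c) (d : Bool) (i : Fin m) : Prop := ∀ r, F.ed d r ≠ i

theorem Own.unique [Fintype V] {T : V → V → Prop} {t : ℕ} {x : Fin t → V} {K m n c : ℕ}
    {F : Frame T x K m n c} {w : V} {r r' : Fin n} (h : Own F w r) (h' : Own F w r') : r = r' := by
  rcases h with h | h | h <;> rcases h' with h' | h' | h' <;> rw [h] at h'
  · simp only [Kind.hub.injEq, true_and] at h'; exact F.ed_inj _ h'
  · simp at h'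
  · simp at h'
  · simp at h'
  · simp only [Kind.hub.injEq, true_and] at h'; exact F.ed_inj _ h'
  · simp at h'
  · simp at h'
  · simp at h'
  · simp only [Kind.ends.injEq] at h'; exact h'

theorem own_or_unused [Fintype V] {T : V → V → Prop} {t : ℕ} {x : Fin t → V} {K m n c : ℕ}
    (F : Frame T x K m n c) {w : V} (h : isSp (F.kind w)) :
    (∃ r, Own F w r) ∨ (∃ j, F.kind w = .x j) ∨
      ∃ d i, Unused F d i ∧ F.kind w = .hub d i := by
  rcases hk : F.kind w with j | ⟨d, i⟩ | r | r | _
  · right; left; exact ⟨j, rfl⟩
  · by_cases hu : Unused F d i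
    · right; right; exact ⟨d, i, hu, rfl⟩
    · left
      unfold Unused at hu
      push Not at hu
      obtain ⟨r, hr⟩ := hu
      refine ⟨r, ?_⟩
      cases d
      · right; left; rw [hk, hr]
      · left; rw [hk, hr]
  · left; exact ⟨r, Or.inr (Or.inr hk)⟩
  · rw [hk] at h; exact absurd h (by simp [isSp])
  · rw [hk] at h; exact absurd h (by simp [isSp])

theorem card_unused [Fintype V] {T : V → V → Prop} {t : ℕ} {x : Fin t → V} {K m n c : ℕ}
    (F : Frame T x K m n c) (d : Bool) :
    (univ.filter (fun i => Unused F d i)).card = m - n := by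
  have h : univ.filter (fun i => Unused F d i) = univ \ univ.image (F.ed d) := by
    ext i
    simp [Unused]
  rw [h, Finset.card_sdiff_of_subset (subset_univ _), Finset.card_image_of_injective _ (F.ed_inj d)]
  simp

/-- The selection of cables. -/
theorem exists_cables [Fintype V] {T : V → V → Prop} {t : ℕ} {x : Fin t → V} {K m n c : ℕ}
    (F : Frame T x K m n c) (rin : Bool → V → Option (Fin n)) (N : ℕ) (hm : m = n + N)
    (ht : t ≤ N) (hn : 4 * (36 * (2 * c + 8) + 1) * N ≤ n) :
    ∃ I : Finset (Fin n), I.card = N ∧
      (∀ w, ((∃ j, F.kind w = .x j) ∨ ∃ d i, Unused F d i ∧ F.kind w = .hub d i) →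
        ∀ d, ∀ r ∈ I, rin d w ≠ some r) ∧
      ∀ w, (∃ r, Own F w r) → ∀ r ∈ I, ∀ r' ∈ I,
        (Own F w r ∨ ∃ d, rin d w = some r) → (Own F w r' ∨ ∃ d, rin d w = some r') → r = r' := by
  set U : Finset V := univ.filter (fun w => (∃ j, F.kind w = .x j) ∨
    ∃ d i, Unused F d i ∧ F.kind w = .hub d i) with hU
  set S : Finset V := univ.filter (fun w => ∃ r, Own F w r) with hS
  set R : Finset (Fin n) := U.biUnion (fun w => (rin true w).toFinset ∪ (rin false w).toFinset)
    with hR
  set tri : V → Finset (Fin n) := fun w => univ.filter (fun r => Own F w r ∨ ∃ d, rin d w = some r)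
    with htri
  have hopt : ∀ o : Option (Fin n), o.toFinset.card ≤ 1 := by
    intro o; cases o <;> simp
  have hUc : U.card ≤ t + 2 * N * (c + 2) := by
    have hsub : U ⊆ univ.filter (fun w => ∃ j, F.kind w = .x j) ∪
        univ.filter (fun w => ∃ p ∈ (univ.filter (fun p : Bool × Fin m => Unused F p.1 p.2)),
          F.kind w = .hub p.1 p.2) := by
      intro w hw
      simp only [hU, mem_filter, mem_univ, true_and] at hw
      simp only [mem_union, mem_filter, mem_univ, true_and]
      rcases hw with h | ⟨d, i, h1, h2⟩
      · exact Or.inl h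
      · exact Or.inr ⟨(d, i), h1, h2⟩
    have h1 := (Finset.card_le_card hsub).trans (Finset.card_union_le _ _)
    have h2 := card_xs F
    have h3 := card_hubs F (univ.filter (fun p : Bool × Fin m => Unused F p.1 p.2))
    have h4 : (univ.filter (fun p : Bool × Fin m => Unused F p.1 p.2)).card ≤ 2 * N := by
      have hsub2 : univ.filter (fun p : Bool × Fin m => Unused F p.1 p.2) ⊆
          (univ.filter (fun i => Unused F true i)).image (fun i => (true, i)) ∪
          (univ.filter (fun i => Unused F false i)).image (fun i => (false, i)) := by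
        rintro ⟨d, i⟩ hp
        simp only [mem_filter, mem_univ, true_and] at hp
        simp only [mem_union, mem_image, mem_filter, mem_univ, true_and, Prod.mk.injEq]
        cases d
        · right; exact ⟨i, hp, rfl, rfl⟩
        · left; exact ⟨i, hp, rfl, rfl⟩
      have a1 := (Finset.card_le_card hsub2).trans (Finset.card_union_le _ _)
      have a2 := (Finset.card_image_le (s := univ.filter (fun i => Unused F true i))
        (f := fun i => (true, i)))
      have a3 := (Finset.card_image_le (s := univ.filter (fun i => Unused F false i))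
        (f := fun i => (false, i)))
      have a4 := card_unused F true
      have a5 := card_unused F false
      omega
    have h5 := Nat.mul_le_mul_right (c + 2) h4
    refine h1.trans (Nat.add_le_add h2 (le_trans (le_of_eq ?_) (h3.trans h5)))
    congr
  have hRc : 2 * R.card ≤ n := by
    have h1 : R.card ≤ U.card * 2 := by
      refine (Finset.card_biUnion_le).trans ?_
      refine Finset.sum_le_card_nsmul _ _ 2 (fun w _ => ?_)
      refine (Finset.card_union_le _ _).trans ?_
      have := hopt (rin true w)
      have := hopt (rin false w)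
      omega
    nlinarith [Nat.zero_le (c * N)]
  have hSc : S.card ≤ (2 * c + 8) * n := by
    have hsub : S ⊆ (univ.filter (fun w => ∃ p ∈ (univ : Finset (Fin n)).image
          (fun r => (true, F.ed true r)), F.kind w = .hub p.1 p.2) ∪
        univ.filter (fun w => ∃ p ∈ (univ : Finset (Fin n)).image
          (fun r => (false, F.ed false r)), F.kind w = .hub p.1 p.2)) ∪
        univ.filter (fun w => ∃ r, F.kind w = .ends r) := by
      intro w hw
      simp only [hS, mem_filter, mem_univ, true_and] at hw
      simp only [mem_union, mem_filter, mem_univ, true_and, mem_image]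
      obtain ⟨r, h | h | h⟩ := hw
      · left; left; exact ⟨_, ⟨r, rfl⟩, h⟩
      · left; right; exact ⟨_, ⟨r, rfl⟩, h⟩
      · right; exact ⟨r, h⟩
    have h1 := (Finset.card_le_card hsub).trans (Finset.card_union_le _ _)
    have h2 := Finset.card_union_le (univ.filter (fun w => ∃ p ∈ (univ : Finset (Fin n)).image
          (fun r => (true, F.ed true r)), F.kind w = .hub p.1 p.2))
        (univ.filter (fun w => ∃ p ∈ (univ : Finset (Fin n)).image
          (fun r => (false, F.ed false r)), F.kind w = .hub p.1 p.2))
    have h3 := card_hubs F ((univ : Finset (Fin n)).image (fun r => (true, F.ed true r)))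
    have h4 := card_hubs F ((univ : Finset (Fin n)).image (fun r => (false, F.ed false r)))
    have h5 := card_ends F
    have h6 : ((univ : Finset (Fin n)).image (fun r => (true, F.ed true r))).card ≤ n :=
      Finset.card_image_le.trans (by simp)
    have h7 : ((univ : Finset (Fin n)).image (fun r => (false, F.ed false r))).card ≤ n :=
      Finset.card_image_le.trans (by simp)
    have h8 := Nat.mul_le_mul_right (c + 2) h6
    have h9 := Nat.mul_le_mul_right (c + 2) h7
    nlinarith
  obtain ⟨I, hI1, hI2, hI3⟩ := exists_select n N (2 * c + 8) S tri (by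
    intro s hs
    simp only [hS, mem_filter, mem_univ, true_and] at hs
    obtain ⟨r0, hr0⟩ := hs
    have hsub : tri s ⊆ {r0} ∪ ((rin true s).toFinset ∪ (rin false s).toFinset) := by
      intro r hr
      simp only [htri, mem_filter, mem_univ, true_and] at hr
      simp only [mem_union, mem_singleton, Option.mem_toFinset, Option.mem_def]
      rcases hr with h | ⟨d, h⟩
      · left; exact h.unique hr0
      · right
        cases d
        · right; exact h
        · left; exact h
    have h1 := (Finset.card_le_card hsub).trans (Finset.card_union_le _ _)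
    have h2 := Finset.card_union_le (rin true s).toFinset (rin false s).toFinset
    have h3 := hopt (rin true s)
    have h4 := hopt (rin false s)
    have h5 : ({r0} : Finset (Fin n)).card = 1 := by simp
    omega) hSc R hRc hn
  refine ⟨I, hI1, ?_, ?_⟩
  · intro w hw d r hr hrin
    refine hI2 r hr ?_
    simp only [hR, mem_biUnion, mem_union, Option.mem_toFinset, Option.mem_def]
    refine ⟨w, by simp only [hU, mem_filter, mem_univ, true_and]; exact hw, ?_⟩
    cases d
    · exact Or.inr hrin
    · exact Or.inl hrin
  · intro w hw r hr r' hr' h1 h2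
    refine hI3 w (by simp only [hS, mem_filter, mem_univ, true_and]; exact hw) r hr r' hr' ?_ ?_
    · simp only [htri, mem_filter, mem_univ, true_and]; exact h1
    · simp only [htri, mem_filter, mem_univ, true_and]; exact h2

end Pool.Agent.W146.TP
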